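import Pool.Agent.R242.SP.Stmts

/-! Part A: complementing sets of integers, the arithmetic part. -/

namespace Pool.Agent.R242.SP
namespace PA

variable {N : ℕ → ℕ}

theorem P_succ (N : ℕ → ℕ) (k : ℕ) : P N (k + 1) = P N k * N (k + 1) :=
  Finset.prod_range_succ _ _

theorem lt_P (hN : ∀ k, 1 ≤ k → 2 ≤ N k) (k : ℕ) : k < P N k := by
  induction k with
  | zero => simp [P]
  | succ k ih =>
    rw [P_succ]
    have := hN (k + 1) (by omega)
    nlinarith

theorem P_pos (hN : ∀ k, 1 ≤ k → 2 ≤ N k) (k : ℕ) : (0 : ℤ) < ((P N k : ℕ) : ℤ) := by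
  have := lt_P hN k
  omega

theorem P_dvd (N : ℕ → ℕ) {j k : ℕ} (h : j ≤ k) : ((P N j : ℕ) : ℤ) ∣ ((P N k : ℕ) : ℤ) := by
  induction k, h using Nat.le_induction with
  | base => exact dvd_refl _
  | succ k _ ih =>
    rw [P_succ, Nat.cast_mul]
    exact ih.trans (dvd_mul_right _ _)

theorem P_le (hN : ∀ k, 1 ≤ k → 2 ≤ N k) {j k : ℕ} (h : j ≤ k) :
    ((P N j : ℕ) : ℤ) ≤ ((P N k : ℕ) : ℤ) := Int.le_of_dvd (P_pos hN k) (P_dvd N h)

/-- the first digit position of `z` is `k + 1` -/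
def At (N : ℕ → ℕ) (k : ℕ) (z : ℤ) : Prop :=
  ((P N k : ℕ) : ℤ) ∣ z ∧ ¬ ((P N (k + 1) : ℕ) : ℤ) ∣ z

theorem At.unique {k l : ℕ} {z : ℤ} (h : At N k z) (h' : At N l z) : k = l := by
  rcases lt_trichotomy k l with h1 | h1 | h1
  · exact absurd ((P_dvd N h1).trans h'.1) h.2
  · exact h1
  · exact absurd ((P_dvd N h1).trans h.1) h'.2

theorem At.ne_zero {k : ℕ} {z : ℤ} (h : At N k z) : z ≠ 0 := by
  rintro rfl
  exact h.2 (dvd_zero _)

theorem At.neg {k : ℕ} {z : ℤ} (h : At N k z) : At N k (-z) :=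
  ⟨(dvd_neg).2 h.1, fun h' => h.2 (dvd_neg.1 h')⟩

theorem At.symm {k : ℕ} {x y : ℤ} (h : At N k (x - y)) : At N k (y - x) := by
  rw [← neg_sub]; exact h.neg

theorem At.add {k : ℕ} {z w : ℤ} (h : At N k z) (hw : ((P N (k + 1) : ℕ) : ℤ) ∣ w) :
    At N k (z + w) :=
  ⟨dvd_add h.1 ((P_dvd N (Nat.le_succ k)).trans hw), fun h' => h.2 ((dvd_add_left hw).1 h')⟩

theorem At.dvd {k j : ℕ} {z : ℤ} (h : At N k z) (hj : j ≤ k) : ((P N j : ℕ) : ℤ) ∣ z :=
  (P_dvd N hj).trans h.1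

theorem exists_at (hN : ∀ k, 1 ≤ k → 2 ≤ N k) {z : ℤ} (hz : z ≠ 0) : ∃ k, At N k z := by
  classical
  have hex : ∃ k, ¬ ((P N k : ℕ) : ℤ) ∣ z := by
    refine ⟨z.natAbs, fun h => ?_⟩
    have h1 := Int.natAbs_dvd_natAbs.2 h
    rw [Int.natAbs_natCast] at h1
    have h2 := Nat.le_of_dvd (Int.natAbs_pos.2 hz) h1
    have h3 := lt_P hN z.natAbs
    omega
  obtain ⟨k, hk⟩ : ∃ k, Nat.find hex = k := ⟨_, rfl⟩
  have h1 := Nat.find_spec hex
  rw [hk] at h1
  cases k with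
  | zero => exact absurd (by simp [P]) h1
  | succ k =>
    refine ⟨k, ?_, h1⟩
    by_contra h2
    have := Nat.find_min' hex h2
    omega

theorem dif_iff (z : ℤ) : Dif N 1 z ↔ ∃ i, At N (2 * i) z := by
  unfold Dif At
  simp

theorem not_dif (hN : ∀ k, 1 ≤ k → 2 ≤ N k) {z : ℤ} (hz : z ≠ 0) (h : ¬ Dif N 1 z) :
    ∃ i, At N (2 * i + 1) z := by
  obtain ⟨k, hk⟩ := exists_at hN hz
  rcases Nat.even_or_odd' k with ⟨i, rfl | rfl⟩
  · exact absurd ((dif_iff z).2 ⟨i, hk⟩) h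
  · exact ⟨i, hk⟩

section Lam

variable {Λ : Set ℤ}

/-- completeness -/
theorem C1 (hN : ∀ k, 1 ≤ k → 2 ≤ N k)
    (h1 : ∀ x ∈ Λ, ∀ y ∈ Λ, x ≠ y → Dif N 1 (x - y))
    (h2 : ∀ z : ℤ, z ∉ Λ → ∃ x ∈ Λ, ¬ Dif N 1 (z - x)) {x : ℤ} (hx : x ∈ Λ) (i : ℕ) (d : ℤ) :
    ∃ x' ∈ Λ, ((P N (2 * i + 1) : ℕ) : ℤ) ∣ x' - (x + d * ((P N (2 * i) : ℕ) : ℤ)) := by
  by_cases hz : x + d * ((P N (2 * i) : ℕ) : ℤ) ∈ Λ
  · exact ⟨_, hz, by rw [sub_self]; exact dvd_zero _⟩
  obtain ⟨x', hx', hd⟩ := h2 _ hz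
  have hne : x + d * ((P N (2 * i) : ℕ) : ℤ) - x' ≠ 0 := by
    intro h
    rw [sub_eq_zero.1 h] at hz
    exact hz hx'
  obtain ⟨j, hj⟩ := not_dif hN hne hd
  refine ⟨x', hx', ?_⟩
  by_cases hij : 2 * i + 1 ≤ 2 * j + 1
  · have := hj.dvd hij
    rw [← neg_sub]
    exact dvd_neg.2 this
  · exfalso
    have h3 : At N (2 * j + 1) (x - x') := by
      have h4 := hj.add (w := -(d * ((P N (2 * i) : ℕ) : ℤ)))
        (dvd_neg.2 ((P_dvd N (by omega)).trans (dvd_mul_left _ _)))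
      convert h4 using 1
      ring
    have h5 : x ≠ x' := fun h => h3.ne_zero (sub_eq_zero.2 h)
    obtain ⟨l, hl⟩ := (dif_iff _).1 (h1 x hx x' hx' h5)
    have := h3.unique hl
    omega

/-- closedness -/
theorem C2 (hN : ∀ k, 1 ≤ k → 2 ≤ N k)
    (h1 : ∀ x ∈ Λ, ∀ y ∈ Λ, x ≠ y → Dif N 1 (x - y))
    (h2 : ∀ z : ℤ, z ∉ Λ → ∃ x ∈ Λ, ¬ Dif N 1 (z - x)) {z : ℤ}
    (hz : ∀ k, ∃ x ∈ Λ, ((P N k : ℕ) : ℤ) ∣ z - x) : z ∈ Λ := by
  by_contra hzn
  obtain ⟨x, hx, hd⟩ := h2 z hzn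
  have hne : z - x ≠ 0 := fun h => hzn (by rw [sub_eq_zero.1 h]; exact hx)
  obtain ⟨i, hi⟩ := not_dif hN hne hd
  obtain ⟨x', hx', hd'⟩ := hz (2 * i + 1 + 1)
  have h3 : At N (2 * i + 1) (x' - x) := by
    have h4 := hi.add (w := -(z - x')) (dvd_neg.2 hd')
    convert h4 using 1
    ring
  have h5 : x' ≠ x := fun h => h3.ne_zero (sub_eq_zero.2 h)
  obtain ⟨l, hl⟩ := (dif_iff _).1 (h1 x' hx' x hx h5)
  have := h3.unique hl
  omega

end Lam

/-- pairwise differences at even positions `≤ 2 l`, and bounded -/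
structure Pre (N : ℕ → ℕ) (R : Finset ℤ) (l : ℕ) : Prop where
  pw : ∀ x ∈ R, ∀ y ∈ R, x ≠ y → ∃ i < l, At N (2 * i + 1) (x - y)
  bd : ∀ x ∈ R, 2 * |x| ≤ ((P N (2 * l) : ℕ) : ℤ)

structure Good (N : ℕ → ℕ) (R : Finset ℤ) (l : ℕ) : Prop extends Pre N R l where
  ne : R.Nonempty
  cp : ∀ y ∈ R, ∀ i < l, ∀ d : ℤ, ∃ y' ∈ R,
    ((P N (2 * i + 2) : ℕ) : ℤ) ∣ y' - (y + d * ((P N (2 * i + 1) : ℕ) : ℤ))

theorem exists_bal (a : ℤ) {p : ℤ} (hp : 0 < p) : ∃ v : ℤ, p ∣ v - a ∧ 2 * |v| ≤ p := by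
  by_cases h : 2 * (a % p) ≤ p
  · refine ⟨a % p, ?_, ?_⟩
    · rw [← dvd_neg, neg_sub]; exact Int.dvd_self_sub_emod
    · rw [abs_of_nonneg (Int.emod_nonneg _ hp.ne')]; exact h
  · refine ⟨a % p - p, ?_, ?_⟩
    · have h1 : p ∣ a - a % p := Int.dvd_self_sub_emod
      have h2 : a % p - p - a = -(a - a % p) - p := by ring
      rw [h2]
      exact dvd_sub (dvd_neg.2 h1) (dvd_refl _)
    · have h1 := Int.emod_lt_of_pos a hp
      rw [abs_of_nonpos (by omega)]
      omega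

theorem extend (hN : ∀ k, 1 ≤ k → 2 ≤ N k) {Y : Finset ℤ} {l : ℕ} (hne : Y.Nonempty)
    (hY : Pre N Y l) : ∃ R, Y ⊆ R ∧ Good N R l := by
  classical
  let B : Finset ℤ := (Finset.Icc (-((P N (2 * l) : ℕ) : ℤ)) ((P N (2 * l) : ℕ) : ℤ))
  let C : Finset (Finset ℤ) := B.powerset.filter fun R => Y ⊆ R ∧ Pre N R l
  have hBmem : ∀ x : ℤ, 2 * |x| ≤ ((P N (2 * l) : ℕ) : ℤ) → x ∈ B := by
    intro x hx
    have h1 := abs_nonneg x
    have h2 := le_abs_self x
    have h3 := neg_abs_le x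
    exact Finset.mem_Icc.2 ⟨by linarith, by linarith⟩
  have hC : ∀ R, R ∈ C ↔ Y ⊆ R ∧ Pre N R l := by
    intro R
    rw [Finset.mem_filter, Finset.mem_powerset]
    exact ⟨fun h => h.2, fun h => ⟨fun x hx => hBmem x (h.2.bd x hx), h⟩⟩
  have hCne : C.Nonempty := ⟨Y, (hC Y).2 ⟨Finset.Subset.refl _, hY⟩⟩
  obtain ⟨R, hR, hmax⟩ := Finset.exists_max_image C Finset.card hCne
  obtain ⟨hYR, hpre⟩ := (hC R).1 hR
  refine ⟨R, hYR, ⟨hpre, hne.mono hYR, ?_⟩⟩
  intro y hy i hi d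
  by_contra hno
  push Not at hno
  obtain ⟨v, hv, hvb⟩ := exists_bal (y + d * ((P N (2 * i + 1) : ℕ) : ℤ)) (P_pos hN (2 * i + 2))
  have hvat : ∀ y' ∈ R, ∃ j < l, At N (2 * j + 1) (v - y') := by
    intro y' hy'
    by_cases hd : ((P N (2 * i + 1) : ℕ) : ℤ) ∣ y - y'
    · refine ⟨i, hi, ?_, ?_⟩
      · have h1 : v - y' = (v - (y + d * ((P N (2 * i + 1) : ℕ) : ℤ))) + (y - y') +
            d * ((P N (2 * i + 1) : ℕ) : ℤ) := by ring
        rw [h1]
        exact dvd_add (dvd_add ((P_dvd N (by omega)).trans hv) hd) (dvd_mul_left _ _)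
      · intro h
        apply hno y' hy'
        have h1 : y' - (y + d * ((P N (2 * i + 1) : ℕ) : ℤ)) =
            (v - (y + d * ((P N (2 * i + 1) : ℕ) : ℤ))) - (v - y') := by ring
        rw [h1]
        exact dvd_sub hv h
    · have hne' : y ≠ y' := fun h => hd (by rw [h, sub_self]; exact dvd_zero _)
      obtain ⟨j, hj, hat⟩ := hpre.pw y hy y' hy' hne'
      refine ⟨j, hj, ?_⟩
      have hji : 2 * j + 1 < 2 * i + 1 := by
        by_contra hcon
        exact hd (hat.dvd (by omega))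
      have h1 : v - y' = (y - y') + ((v - (y + d * ((P N (2 * i + 1) : ℕ) : ℤ))) +
            d * ((P N (2 * i + 1) : ℕ) : ℤ)) := by ring
      rw [h1]
      apply hat.add
      exact dvd_add ((P_dvd N (by omega)).trans hv) ((P_dvd N (by omega)).trans (dvd_mul_left _ _))
  have hvR : v ∉ R := by
    intro h
    obtain ⟨j, -, hat⟩ := hvat v h
    exact hat.ne_zero (sub_self v)
  have hins : insert v R ∈ C := by
    rw [hC]
    refine ⟨hYR.trans (Finset.subset_insert _ _), ⟨?_, ?_⟩⟩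
    · intro x hx x' hx' hxx
      rcases Finset.mem_insert.1 hx with h3 | h3
      · rcases Finset.mem_insert.1 hx' with h4 | h4
        · exact absurd (h3.trans h4.symm) hxx
        · rw [h3]; exact hvat x' h4
      · rcases Finset.mem_insert.1 hx' with h4 | h4
        · obtain ⟨j, hj, hat⟩ := hvat x h3
          rw [h4]
          exact ⟨j, hj, hat.symm⟩
        · exact hpre.pw x h3 x' h4 hxx
    · intro x hx
      rcases Finset.mem_insert.1 hx with h3 | h3
      · rw [h3]; exact hvb.trans (P_le hN (by omega))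
      · exact hpre.bd x h3
  have := hmax _ hins
  rw [Finset.card_insert_of_notMem hvR] at this
  omega

theorem approx (hN : ∀ k, 1 ≤ k → 2 ≤ N k) {Λ : Set ℤ} (hΛ : Λ.Nonempty)
    (h1 : ∀ x ∈ Λ, ∀ y ∈ Λ, x ≠ y → Dif N 1 (x - y))
    (h2 : ∀ z : ℤ, z ∉ Λ → ∃ x ∈ Λ, ¬ Dif N 1 (z - x)) {R : Finset ℤ} {l : ℕ} (hR : Good N R l)
    (z : ℤ) : ∀ k ≤ 2 * l, ∃ x ∈ Λ, ∃ y ∈ R, ((P N k : ℕ) : ℤ) ∣ z - x - y := by
  intro k
  induction k with
  | zero =>
    intro _
    obtain ⟨x, hx⟩ := hΛ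
    obtain ⟨y, hy⟩ := hR.ne
    exact ⟨x, hx, y, hy, by simp [P]⟩
  | succ k ih =>
    intro hk
    obtain ⟨x, hx, y, hy, d, hd⟩ := ih (by omega)
    rcases Nat.even_or_odd' k with ⟨i, rfl | rfl⟩
    · obtain ⟨x', hx', hd'⟩ := C1 hN h1 h2 hx i d
      refine ⟨x', hx', y, hy, ?_⟩
      have h3 : z - x' - y = -(x' - (x + d * ((P N (2 * i) : ℕ) : ℤ))) := by linarith
      rw [h3]
      exact dvd_neg.2 hd'
    · obtain ⟨y', hy', hd'⟩ := hR.cp y hy i (by omega) d
      refine ⟨x, hx, y', hy', ?_⟩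
      have h3 : z - x - y' = -(y' - (y + d * ((P N (2 * i + 1) : ℕ) : ℤ))) := by linarith
      rw [h3]
      exact dvd_neg.2 hd'

theorem step (hN : ∀ k, 1 ≤ k → 2 ≤ N k) {Λ : Set ℤ} (hΛ : Λ.Nonempty)
    (h1 : ∀ x ∈ Λ, ∀ y ∈ Λ, x ≠ y → Dif N 1 (x - y))
    (h2 : ∀ z : ℤ, z ∉ Λ → ∃ x ∈ Λ, ¬ Dif N 1 (z - x)) {R : Finset ℤ} {l : ℕ} (hR : Good N R l)
    (z : ℤ) : ∃ (R' : Finset ℤ) (l' : ℕ), l < l' ∧ R ⊆ R' ∧ Good N R' l' ∧
      ∃ x ∈ Λ, ∃ y ∈ R', z = x + y := by
  classical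
  obtain ⟨x, hx, y, hy, hxy⟩ := approx hN hΛ h1 h2 hR z (2 * l) (le_refl _)
  by_cases hall : ∀ k, ∃ x ∈ Λ, ((P N k : ℕ) : ℤ) ∣ z - y - x
  · have hz := C2 hN h1 h2 hall
    have hpre : Pre N R (l + 1) := by
      refine ⟨fun a ha b hb hab => ?_, fun a ha => (hR.bd a ha).trans (P_le hN (by omega))⟩
      obtain ⟨i, hi, hat⟩ := hR.pw a ha b hb hab
      exact ⟨i, by omega, hat⟩
    obtain ⟨R', hRR', hR'⟩ := extend hN hR.ne hpre
    exact ⟨R', l + 1, by omega, hRR', hR', z - y, hz, y, hRR' hy, by ring⟩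
  · push Not at hall
    obtain ⟨k, hk⟩ : ∃ k, Nat.find hall = k := ⟨_, rfl⟩
    have hk1 := Nat.find_spec hall
    rw [hk] at hk1
    have hk2 : 2 * l < k := by
      by_contra hcon
      apply hk1 x hx
      have h3 : z - y - x = z - x - y := by ring
      rw [h3]
      exact (P_dvd N (by omega)).trans hxy
    obtain ⟨κ, rfl⟩ : ∃ κ, k = κ + 1 := ⟨k - 1, by omega⟩
    have hκ : ∃ x ∈ Λ, ((P N κ : ℕ) : ℤ) ∣ z - y - x := by
      by_contra hcon
      push Not at hcon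
      have := Nat.find_min' hall hcon
      omega
    obtain ⟨x1, hx1, hd1⟩ := hκ
    rcases Nat.even_or_odd' κ with ⟨i, rfl | rfl⟩
    · exfalso
      obtain ⟨d, hd⟩ := hd1
      obtain ⟨x', hx', hd'⟩ := C1 hN h1 h2 hx1 i d
      apply hk1 x' hx'
      have h3 : z - y - x' = -(x' - (x1 + d * ((P N (2 * i) : ℕ) : ℤ))) := by linarith
      rw [h3]
      exact dvd_neg.2 hd'
    · have hat : At N (2 * i + 1) (z - x1 - y) := by
        have h3 : z - x1 - y = z - y - x1 := by ring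
        rw [h3]
        exact ⟨hd1, hk1 x1 hx1⟩
      let l' := i + 1 + (z - x1).natAbs
      have hpre : Pre N (insert (z - x1) R) l' := by
        have hstar : ∀ y' ∈ R, ∃ j < l', At N (2 * j + 1) (z - x1 - y') := by
          intro y' hy'
          by_cases hyy : y = y'
          · rw [← hyy]
            exact ⟨i, by omega, hat⟩
          · obtain ⟨j, hj, hj2⟩ := hR.pw y hy y' hy' hyy
            refine ⟨j, by omega, ?_⟩
            have h3 : z - x1 - y' = (y - y') + (z - x1 - y) := by ring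
            rw [h3]
            exact hj2.add (hat.dvd (by omega))
        refine ⟨fun a ha b hb hab => ?_, fun a ha => ?_⟩
        · rcases Finset.mem_insert.1 ha with rfl | ha
          · rcases Finset.mem_insert.1 hb with rfl | hb
            · exact absurd rfl hab
            · exact hstar b hb
          · rcases Finset.mem_insert.1 hb with rfl | hb
            · obtain ⟨j, hj, hj2⟩ := hstar a ha
              exact ⟨j, hj, hj2.symm⟩
            · obtain ⟨j, hj, hj2⟩ := hR.pw a ha b hb hab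
              exact ⟨j, by omega, hj2⟩
        · rcases Finset.mem_insert.1 ha with rfl | ha
          · have h3 := lt_P hN (2 * l')
            have h4 : (|z - x1| : ℤ) = ((z - x1).natAbs : ℤ) := Int.abs_eq_natAbs _
            rw [h4]
            have h5 : (z - x1).natAbs ≤ l' := by omega
            omega
          · exact (hR.bd a ha).trans (P_le hN (by omega))
      obtain ⟨R', hRR', hR'⟩ := extend hN (Finset.insert_nonempty _ _) hpre
      refine ⟨R', l', by omega, (Finset.subset_insert _ _).trans hRR', hR', x1, hx1, z - x1,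
        hRR' (Finset.mem_insert_self _ _), by ring⟩

/-! ### the number of elements -/

theorem card_good (hN : ∀ k, 1 ≤ k → 2 ≤ N k) {R : Finset ℤ} {l : ℕ} (hR : Good N R l) :
    R.card = ∏ i ∈ Finset.range l, N (2 * i + 2) := by
  classical
  have key : ∀ j ≤ l, (R.image (· % ((P N (2 * j) : ℕ) : ℤ))).card =
      ∏ i ∈ Finset.range j, N (2 * i + 2) := by
    intro j
    induction j with
    | zero =>
      intro _
      have : R.image (· % ((P N (2 * 0) : ℕ) : ℤ)) = {0} := by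
        have h0 : ((P N (2 * 0) : ℕ) : ℤ) = 1 := by simp [P]
        rw [h0]
        simp only [Int.emod_one]
        exact Finset.image_const hR.ne 0
      rw [this]; simp
    | succ j ih =>
      intro hj
      rw [Finset.prod_range_succ, ← ih (by omega)]
      -- residues modulo `P (2 j + 1)`
      have hstep1 : (R.image (· % ((P N (2 * j + 1) : ℕ) : ℤ))).card =
          (R.image (· % ((P N (2 * j) : ℕ) : ℤ))).card := by
        have e1 : R.image (· % ((P N (2 * j) : ℕ) : ℤ)) =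
            (R.image (· % ((P N (2 * j + 1) : ℕ) : ℤ))).image (· % ((P N (2 * j) : ℕ) : ℤ)) := by
          rw [Finset.image_image]
          apply Finset.image_congr
          intro x _
          exact (Int.emod_emod_of_dvd x (P_dvd N (by omega))).symm
        rw [e1]
        symm
        apply Finset.card_image_of_injOn
        intro u hu v hv huv
        obtain ⟨x, hx, rfl⟩ := Finset.mem_image.1 (Finset.mem_coe.1 hu)
        obtain ⟨y, hy, rfl⟩ := Finset.mem_image.1 (Finset.mem_coe.1 hv)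
        simp only at huv ⊢
        rw [Int.emod_emod_of_dvd x (P_dvd N (by omega)),
          Int.emod_emod_of_dvd y (P_dvd N (by omega))] at huv
        by_cases hxy : x = y
        · rw [hxy]
        obtain ⟨i, hi, hat⟩ := hR.pw x hx y hy hxy
        apply Int.ModEq.symm
        apply (Int.modEq_iff_dvd).2
        have h3 : ((P N (2 * j) : ℕ) : ℤ) ∣ x - y := (Int.ModEq.dvd (Int.ModEq.symm huv))
        by_cases hji : 2 * j + 1 ≤ 2 * i + 1
        · exact hat.dvd hji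
        · exact absurd ((P_dvd N (by omega)).trans h3) hat.2
      rw [← hstep1]
      have hp := P_pos hN (2 * j + 1)
      have hmul : ((P N (2 * (j + 1)) : ℕ) : ℤ) = ((P N (2 * j + 1) : ℕ) : ℤ) * (N (2 * j + 2) : ℤ) := by
        have : 2 * (j + 1) = 2 * j + 1 + 1 := by ring
        rw [this, P_succ, Nat.cast_mul]
      have e2 : R.image (· % ((P N (2 * (j + 1)) : ℕ) : ℤ)) =
          ((R.image (· % ((P N (2 * j + 1) : ℕ) : ℤ))) ×ˢ Finset.range (N (2 * j + 2))).image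
            fun p => p.1 + (p.2 : ℤ) * ((P N (2 * j + 1) : ℕ) : ℤ) := by
        ext u
        constructor
        · intro hu
          obtain ⟨x, hx, rfl⟩ := Finset.mem_image.1 hu
          refine Finset.mem_image.2 ⟨(x % ((P N (2 * j + 1) : ℕ) : ℤ),
            ((x % ((P N (2 * (j + 1)) : ℕ) : ℤ)) / ((P N (2 * j + 1) : ℕ) : ℤ)).toNat), ?_, ?_⟩
          · rw [Finset.mem_product]
            refine ⟨Finset.mem_image_of_mem _ hx, ?_⟩
            rw [Finset.mem_range]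
            have h4 : 0 ≤ x % ((P N (2 * (j + 1)) : ℕ) : ℤ) / ((P N (2 * j + 1) : ℕ) : ℤ) :=
              Int.ediv_nonneg (Int.emod_nonneg _ (P_pos hN _).ne') hp.le
            have h5 : x % ((P N (2 * (j + 1)) : ℕ) : ℤ) / ((P N (2 * j + 1) : ℕ) : ℤ) <
                (N (2 * j + 2) : ℤ) := by
              apply Int.ediv_lt_of_lt_mul hp
              have h55 := Int.emod_lt_of_pos x (P_pos hN (2 * (j + 1)))
              have h56 : (N (2 * j + 2) : ℤ) * ((P N (2 * j + 1) : ℕ) : ℤ) =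
                  ((P N (2 * (j + 1)) : ℕ) : ℤ) := by rw [hmul]; ring
              rw [h56]
              exact h55
            simp only
            omega
          · simp only
            have h4 : 0 ≤ x % ((P N (2 * (j + 1)) : ℕ) : ℤ) / ((P N (2 * j + 1) : ℕ) : ℤ) :=
              Int.ediv_nonneg (Int.emod_nonneg _ (P_pos hN _).ne') hp.le
            rw [Int.toNat_of_nonneg h4]
            have h6 := Int.emod_emod_of_dvd x
              (P_dvd N (show 2 * j + 1 ≤ 2 * (j + 1) by omega))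
            have h7 := Int.emod_add_mul_ediv (x % ((P N (2 * (j + 1)) : ℕ) : ℤ))
              ((P N (2 * j + 1) : ℕ) : ℤ)
            rw [h6] at h7
            linarith
        · intro hu
          obtain ⟨⟨a, d⟩, hp2, rfl⟩ := Finset.mem_image.1 hu
          rw [Finset.mem_product] at hp2
          obtain ⟨ha, hd⟩ := hp2
          obtain ⟨x, hx, rfl⟩ := Finset.mem_image.1 ha
          simp only at hd ⊢
          rw [Finset.mem_range] at hd
          -- x = x % p + q p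
          obtain ⟨y', hy', hd'⟩ := hR.cp x hx j (by omega)
            ((d : ℤ) - x / ((P N (2 * j + 1) : ℕ) : ℤ))
          refine Finset.mem_image.2 ⟨y', hy', ?_⟩
          have h6 := Int.emod_add_mul_ediv x ((P N (2 * j + 1) : ℕ) : ℤ)
          have h7 : x + ((d : ℤ) - x / ((P N (2 * j + 1) : ℕ) : ℤ)) * ((P N (2 * j + 1) : ℕ) : ℤ) =
              x % ((P N (2 * j + 1) : ℕ) : ℤ) + (d : ℤ) * ((P N (2 * j + 1) : ℕ) : ℤ) := by
            linarith
          rw [h7] at hd'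
          have h8 : y' % ((P N (2 * (j + 1)) : ℕ) : ℤ) =
              (x % ((P N (2 * j + 1) : ℕ) : ℤ) + (d : ℤ) * ((P N (2 * j + 1) : ℕ) : ℤ)) %
                ((P N (2 * (j + 1)) : ℕ) : ℤ) :=
            Int.emod_eq_emod_iff_emod_sub_eq_zero.2 (Int.emod_eq_zero_of_dvd hd')
          rw [h8]
          apply Int.emod_eq_of_lt
          · have := Int.emod_nonneg x hp.ne'
            positivity
          · have h9 := Int.emod_lt_of_pos x hp
            rw [hmul]
            have h10 : ((d : ℤ) + 1) ≤ (N (2 * j + 2) : ℤ) := by omega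
            nlinarith
      rw [e2, Finset.card_image_of_injOn, Finset.card_product, Finset.card_range]
      intro p hp1 q hq1 hpq
      rw [Finset.mem_coe, Finset.mem_product] at hp1 hq1
      obtain ⟨x, hx, hxe⟩ := Finset.mem_image.1 hp1.1
      obtain ⟨y, hy, hye⟩ := Finset.mem_image.1 hq1.1
      simp only at hpq hxe hye
      have h3 : p.1 = (p.1 + (p.2 : ℤ) * ((P N (2 * j + 1) : ℕ) : ℤ)) %
          ((P N (2 * j + 1) : ℕ) : ℤ) := by
        rw [Int.add_mul_emod_self_right, ← hxe, Int.emod_emod_of_dvd _ (dvd_refl _)]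
      have h4 : q.1 = (q.1 + (q.2 : ℤ) * ((P N (2 * j + 1) : ℕ) : ℤ)) %
          ((P N (2 * j + 1) : ℕ) : ℤ) := by
        rw [Int.add_mul_emod_self_right, ← hye, Int.emod_emod_of_dvd _ (dvd_refl _)]
      have h5 : p.1 = q.1 := by rw [h3, hpq, ← h4]
      rw [h5] at hpq
      have h6 := add_left_cancel hpq
      have h7 := mul_right_cancel₀ hp.ne' h6
      exact Prod.ext h5 (by exact_mod_cast h7)
  rw [← key l (le_refl _), Finset.card_image_of_injOn]
  intro x hx y hy hxy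
  by_contra hne
  obtain ⟨i, hi, hat⟩ := hR.pw x hx y hy hne
  apply hat.2
  have h3 : ((P N (2 * l) : ℕ) : ℤ) ∣ x - y := Int.ModEq.dvd (Int.ModEq.symm hxy)
  exact (P_dvd N (by omega)).trans h3

end PA

open PA in
/-- Part A. -/
theorem a : S_A := by
  classical
  intro N hN Λ hΛ h1 h2
  have hstart : Good N {0} 0 := by
    refine ⟨⟨?_, ?_⟩, Finset.singleton_nonempty _, ?_⟩
    · intro x hx y hy hxy
      rw [Finset.mem_singleton] at hx hy
      exact absurd (hx.trans hy.symm) hxy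
    · intro x hx
      rw [Finset.mem_singleton] at hx
      rw [hx]
      simp
    · intro y _ i hi
      omega
  choose! nR nl hlt hsub hgood hrep using
    fun (s : {p : Finset ℤ × ℕ // Good N p.1 p.2}) (z : ℤ) => step hN hΛ h1 h2 s.2 z
  let z : ℕ → ℤ := fun n => (Encodable.decode (α := ℤ) n).getD 0
  let S : ℕ → {p : Finset ℤ × ℕ // Good N p.1 p.2} := fun n =>
    Nat.rec ⟨({0}, 0), hstart⟩ (fun n s => ⟨(nR s (z n), nl s (z n)), hgood s (z n)⟩) n
  have hS : ∀ n, S (n + 1) = ⟨(nR (S n) (z n), nl (S n) (z n)), hgood (S n) (z n)⟩ := fun n => rfl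
  refine ⟨fun n => (S n).1.1, fun n => (S n).1.2, ?_, ?_, ?_, ?_, ?_, ?_⟩
  · apply strictMono_nat_of_lt_succ
    intro n
    rw [hS n]
    exact hlt _ _
  · intro j
    exact hsub (S j) (z j)
  · intro j x hx y hy hxy
    exact (S j).2.pw x hx y hy hxy
  · intro j
    exact card_good hN (S j).2
  · intro j x hx
    exact (S j).2.bd x hx
  · intro w
    obtain ⟨x, hx, y, hy, hxy⟩ := hrep (S (Encodable.encode w)) (z (Encodable.encode w))
    refine ⟨x, hx, Encodable.encode w + 1, y, ?_, ?_⟩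
    · exact hy
    · rw [← hxy]
      change w = ((Encodable.decode (α := ℤ) (Encodable.encode w)).getD 0)
      rw [Encodable.encodek]
      rfl

end Pool.Agent.R242.SP
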