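import Pool.Agent.R242.SP.Stmts

open MeasureTheory Filter Topology
open scoped ENNReal

namespace Pool.Agent.R242.SP

namespace BB

lemma P_succ (N : ℕ → ℕ) (k : ℕ) : P N (k + 1) = P N k * N (k + 1) := by
  simp [P, Finset.prod_range_succ]

lemma P_pos {N : ℕ → ℕ} (hN : ∀ k, 1 ≤ k → 2 ≤ N k) (k : ℕ) : 0 < P N k := by
  unfold P
  exact Finset.prod_pos fun i _ => by have := hN (i + 1) (by omega); omega

lemma two_pow_mul_le {N : ℕ → ℕ} (hN : ∀ k, 1 ≤ k → 2 ≤ N k) (n k : ℕ) :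
    2 ^ k * P N n ≤ P N (n + k) := by
  induction k with
  | zero => simp
  | succ k ih =>
    rw [← add_assoc, P_succ, pow_succ]
    calc 2 ^ k * 2 * P N n = (2 ^ k * P N n) * 2 := by ring
      _ ≤ _ := Nat.mul_le_mul ih (hN _ (by omega))

/-! ### B1 -/

lemma ft_eq_charFun (μ : Measure ℝ) (ξ : ℝ) : ft μ ξ = charFun μ (2 * Real.pi * ξ) := by
  rw [charFun_apply_real, ft]
  congr 1
  ext x
  congr 1
  push_cast
  ring

lemma nu_prob {N : ℕ → ℕ} (hN : ∀ k, 1 ≤ k → 2 ≤ N k) {k : ℕ} (hk : 1 ≤ k) :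
    IsProbabilityMeasure (nu N k) := by
  have h := hN k hk
  constructor
  simp only [nu, Measure.smul_apply, Measure.finsetSum_apply, measure_univ, Finset.sum_const,
    Finset.card_range, nsmul_eq_mul, mul_one, smul_eq_mul]
  exact ENNReal.inv_mul_cancel (by simp; omega) (by simp)

lemma part_prob {N : ℕ → ℕ} (hN : ∀ k, 1 ≤ k → 2 ≤ N k) {s : ℕ} (hs : 1 ≤ s) (n : ℕ) :
    IsProbabilityMeasure (part N s n) := by
  induction n with
  | zero => simp only [part]; infer_instance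
  | succ n ih =>
    simp only [part]
    have := nu_prob hN (show 1 ≤ 2 * n + s by omega)
    infer_instance

lemma ft_nu {N : ℕ → ℕ} (hN : ∀ k, 1 ≤ k → 2 ≤ N k) {k : ℕ} (hk : 1 ≤ k) (ξ : ℝ) :
    ft (nu N k) ξ = m N k ξ := by
  have h := hN k hk
  unfold ft nu m
  rw [integral_smul_measure, integral_finsetSum_measure]
  · simp only [integral_dirac]
    rw [show ((N k : ℝ≥0∞)⁻¹).toReal = ((N k : ℝ))⁻¹ by simp]
    rw [Complex.real_smul]
    push_cast
    rfl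
  · intro i _
    exact integrable_dirac (by simp [enorm_lt_top])

lemma ft_part {N : ℕ → ℕ} (hN : ∀ k, 1 ≤ k → 2 ≤ N k) {s : ℕ} (hs : 1 ≤ s) (n : ℕ) (ξ : ℝ) :
    ft (part N s n) ξ = ∏ i ∈ Finset.range n, m N (2 * i + s) ξ := by
  induction n with
  | zero => simp [part, ft]
  | succ n ih =>
    rw [Finset.prod_range_succ, ← ih, ← ft_nu hN (by omega)]
    simp only [part]
    have := nu_prob hN (show 1 ≤ 2 * n + s by omega)
    have := part_prob hN hs n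
    simp only [ft_eq_charFun]
    exact charFun_conv _

lemma ft_eq (μ : Measure ℝ) [IsFiniteMeasure μ] (ξ : ℝ) :
    ft μ ξ = ((∫ x, Real.cos (2 * Real.pi * ξ * x) ∂μ : ℝ) : ℂ) +
      ((∫ x, Real.sin (2 * Real.pi * ξ * x) ∂μ : ℝ) : ℂ) * Complex.I := by
  have hc : Integrable (fun x : ℝ => Real.cos (2 * Real.pi * ξ * x)) μ := by
    refine Integrable.of_bound (by fun_prop) 1 (ae_of_all _ fun x => ?_)
    exact Real.abs_cos_le_one _
  have hs : Integrable (fun x : ℝ => Real.sin (2 * Real.pi * ξ * x)) μ := by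
    refine Integrable.of_bound (by fun_prop) 1 (ae_of_all _ fun x => ?_)
    exact Real.abs_sin_le_one _
  rw [ft, ← integral_complex_ofReal, ← integral_complex_ofReal, ← integral_mul_const,
    ← integral_add]
  · congr 1
    ext x
    rw [show (2 * Real.pi * Complex.I * ξ * x : ℂ) = ((2 * Real.pi * ξ * x : ℝ) : ℂ) * Complex.I by
      push_cast; ring]
    rw [Complex.exp_mul_I]
    push_cast
    rfl
  · exact hc.ofReal
  · exact hs.ofReal.mul_const _

end BB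

open BB in
theorem b1 : S_B1 := by
  intro N hN s hs μ _ hμ ξ
  have h1 : ∀ n, ∏ i ∈ Finset.range n, m N (2 * i + s) ξ = ft (part N s n) ξ :=
    fun n => (ft_part hN hs n ξ).symm
  simp only [h1]
  have h2 : ∀ n, ft (part N s n) ξ =
      ((∫ x, Real.cos (2 * Real.pi * ξ * x) ∂(part N s n) : ℝ) : ℂ) +
      ((∫ x, Real.sin (2 * Real.pi * ξ * x) ∂(part N s n) : ℝ) : ℂ) * Complex.I := by
    intro n
    have := part_prob hN hs n
    exact ft_eq _ ξ
  simp only [h2]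
  rw [ft_eq μ ξ]
  have hc : Tendsto (fun n => ∫ x, Real.cos (2 * Real.pi * ξ * x) ∂(part N s n)) atTop
      (𝓝 (∫ x, Real.cos (2 * Real.pi * ξ * x) ∂μ)) :=
    hμ (BoundedContinuousFunction.ofNormedAddCommGroup (fun x : ℝ => Real.cos (2 * Real.pi * ξ * x))
      (by fun_prop) 1 (fun x => Real.abs_cos_le_one _))
  have hsn : Tendsto (fun n => ∫ x, Real.sin (2 * Real.pi * ξ * x) ∂(part N s n)) atTop
      (𝓝 (∫ x, Real.sin (2 * Real.pi * ξ * x) ∂μ)) :=
    hμ (BoundedContinuousFunction.ofNormedAddCommGroup (fun x : ℝ => Real.sin (2 * Real.pi * ξ * x))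
      (by fun_prop) 1 (fun x => Real.abs_sin_le_one _))
  exact ((Complex.continuous_ofReal.tendsto _).comp hc).add
    (((Complex.continuous_ofReal.tendsto _).comp hsn).mul_const _)

namespace BB

/-! ### B2 -/

lemma m_eq (N : ℕ → ℕ) (k : ℕ) (ξ : ℝ) :
    m N k ξ = (N k : ℂ)⁻¹ * ∑ j ∈ Finset.range (N k),
      (Complex.exp (2 * Real.pi * Complex.I * ξ / (P N k : ℂ))) ^ j := by
  unfold m
  congr 1
  refine Finset.sum_congr rfl fun j _ => ?_
  rw [← Complex.exp_nat_mul]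
  congr 1
  ring

lemma exp_one_iff {ξ : ℝ} {p : ℕ} (hp : 0 < p) :
    Complex.exp (2 * Real.pi * Complex.I * ξ / (p : ℂ)) = 1 ↔ ∃ a : ℤ, ξ = a * (p : ℝ) := by
  rw [Complex.exp_eq_one_iff]
  have hp' : (p : ℂ) ≠ 0 := by exact_mod_cast hp.ne'
  have hpi : (2 * Real.pi * Complex.I : ℂ) ≠ 0 := Complex.two_pi_I_ne_zero
  refine exists_congr fun a => ?_
  constructor
  · intro h
    have h1 : (2 * Real.pi * Complex.I : ℂ) * (ξ - a * p) = 0 := by
      have := congrArg (fun z => z * (p : ℂ)) h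
      simp only [div_mul_cancel₀ _ hp'] at this
      linear_combination this
    have h2 := (mul_eq_zero.1 h1).resolve_left hpi
    have h3 : (ξ : ℂ) = a * p := sub_eq_zero.1 h2
    exact_mod_cast h3
  · intro h
    have h3 : (ξ : ℂ) = a * p := by exact_mod_cast h
    rw [h3]
    field_simp

end BB

open BB in
theorem b2 : S_B2 := by
  intro N hN k hk ξ
  obtain ⟨l, rfl⟩ : ∃ l, k = l + 1 := ⟨k - 1, by omega⟩
  have h2 := hN (l + 1) (by omega)
  have hNk : ((N (l + 1) : ℕ) : ℂ) ≠ 0 := by exact_mod_cast (show N (l + 1) ≠ 0 by omega)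
  rw [m_eq, mul_eq_zero, or_iff_right (inv_ne_zero hNk)]
  simp only [Nat.add_sub_cancel]
  set w := Complex.exp (2 * Real.pi * Complex.I * ξ / (P N (l + 1) : ℂ)) with hw
  have hP := P_pos hN l
  have hP1 := P_pos hN (l + 1)
  have hPc : ((P N l : ℕ) : ℂ) ≠ 0 := by exact_mod_cast hP.ne'
  have hwN : w ^ (N (l + 1)) = Complex.exp (2 * Real.pi * Complex.I * ξ / (P N l : ℂ)) := by
    rw [hw, ← Complex.exp_nat_mul]
    congr 1
    rw [P_succ]
    push_cast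
    field_simp
  have hwN1 : w ^ (N (l + 1)) = 1 ↔ ∃ a : ℤ, ξ = a * (P N l : ℝ) := by
    rw [hwN]; exact exp_one_iff hP
  have hw1 : w = 1 ↔ ∃ a : ℤ, ξ = a * (P N (l + 1) : ℝ) := exp_one_iff hP1
  have hPr : ((P N l : ℕ) : ℝ) ≠ 0 := by exact_mod_cast hP.ne'
  constructor
  · intro h
    have hne : w ≠ 1 := by
      intro h1
      rw [h1] at h
      simp at h
      omega
    have h3 : w ^ (N (l + 1)) = 1 := by
      have h4 := mul_geom_sum w (N (l + 1))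
      rw [h, mul_zero] at h4
      exact (sub_eq_zero.1 h4.symm)
    obtain ⟨a, ha⟩ := hwN1.1 h3
    refine ⟨a, ha, ?_⟩
    rintro ⟨c, hc⟩
    apply hne
    rw [hw1]
    refine ⟨c, ?_⟩
    rw [ha, hc, P_succ]
    push_cast
    ring
  · rintro ⟨a, ha, hna⟩
    have h3 : w ^ (N (l + 1)) = 1 := hwN1.2 ⟨a, ha⟩
    have hne : w ≠ 1 := by
      intro h1
      obtain ⟨c, hc⟩ := hw1.1 h1
      apply hna
      refine ⟨c, ?_⟩
      have h5 : (a : ℝ) * (P N l : ℝ) = (N (l + 1) * c : ℝ) * (P N l : ℝ) := by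
        rw [← ha, hc, P_succ]; push_cast; ring
      have h6 := mul_right_cancel₀ hPr h5
      exact_mod_cast h6
    have h4 := mul_geom_sum w (N (l + 1))
    rw [h3, sub_self] at h4
    exact (mul_eq_zero.1 h4).resolve_left (sub_ne_zero.2 hne)

namespace BB

/-! ### B3, B4 -/

lemma norm_m_le {N : ℕ → ℕ} (hN : ∀ k, 1 ≤ k → 2 ≤ N k) {k : ℕ} (hk : 1 ≤ k) (ξ : ℝ) :
    ‖m N k ξ‖ ≤ 1 := by
  have h2 := hN k hk
  have hNk : (0 : ℝ) < (N k : ℝ) := by exact_mod_cast (show 0 < N k by omega)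
  unfold m
  rw [norm_mul, norm_inv, Complex.norm_natCast]
  have h : ‖∑ j ∈ Finset.range (N k),
      Complex.exp (2 * Real.pi * Complex.I * ξ * (j / (P N k : ℂ)))‖ ≤ N k := by
    refine (norm_sum_le _ _).trans ?_
    have : ∀ j ∈ Finset.range (N k),
        ‖Complex.exp (2 * Real.pi * Complex.I * ξ * (j / (P N k : ℂ)))‖ ≤ 1 := by
      intro j _
      rw [show (2 * Real.pi * Complex.I * ξ * (j / (P N k : ℂ)) : ℂ) =
        ((2 * Real.pi * ξ * (j / (P N k : ℝ)) : ℝ) : ℂ) * Complex.I by push_cast; ring]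
      rw [Complex.norm_exp_ofReal_mul_I]
    refine (Finset.sum_le_sum this).trans ?_
    simp
  calc (N k : ℝ)⁻¹ * _ ≤ (N k : ℝ)⁻¹ * N k := by gcongr
    _ = 1 := inv_mul_cancel₀ hNk.ne'

lemma norm_one_sub_m {N : ℕ → ℕ} (hN : ∀ k, 1 ≤ k → 2 ≤ N k) (k : ℕ) (ξ : ℝ) :
    ‖1 - m N (k + 1) ξ‖ ≤ Real.pi * |ξ| / (P N k : ℝ) := by
  have h2 := hN (k + 1) (by omega)
  have hNk : (0 : ℝ) < (N (k + 1) : ℝ) := by exact_mod_cast (show 0 < N (k + 1) by omega)
  have hNc : (N (k + 1) : ℂ) ≠ 0 := by exact_mod_cast hNk.ne'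
  have hP : (0 : ℝ) < (P N k : ℝ) := by exact_mod_cast P_pos hN k
  have hP1 : (0 : ℝ) < (P N (k + 1) : ℝ) := by exact_mod_cast P_pos hN (k + 1)
  have e1 : 1 - m N (k + 1) ξ = (N (k + 1) : ℂ)⁻¹ * ∑ j ∈ Finset.range (N (k + 1)),
      (1 - Complex.exp (2 * Real.pi * Complex.I * ξ * (j / (P N (k + 1) : ℂ)))) := by
    rw [Finset.sum_sub_distrib, mul_sub]
    unfold m
    congr 1
    simp [inv_mul_cancel₀ hNc]
  rw [e1, norm_mul, norm_inv, Complex.norm_natCast]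
  have h3 : ‖∑ j ∈ Finset.range (N (k + 1)),
      (1 - Complex.exp (2 * Real.pi * Complex.I * ξ * (j / (P N (k + 1) : ℂ))))‖ ≤
      ∑ j ∈ Finset.range (N (k + 1)), 2 * Real.pi * |ξ| / (P N (k + 1) : ℝ) * j := by
    refine (norm_sum_le _ _).trans (Finset.sum_le_sum fun j _ => ?_)
    rw [norm_sub_rev, show (2 * Real.pi * Complex.I * ξ * (j / (P N (k + 1) : ℂ)) : ℂ) =
        Complex.I * ((2 * Real.pi * ξ * (j / (P N (k + 1) : ℝ)) : ℝ) : ℂ) by push_cast; ring]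
    refine Real.norm_exp_I_mul_ofReal_sub_one_le.trans (le_of_eq ?_)
    rw [Real.norm_eq_abs, abs_mul, abs_mul, abs_mul, abs_div, abs_of_pos Real.pi_pos,
      abs_of_pos hP1, Nat.abs_cast]
    simp only [Nat.abs_ofNat]
    ring
  have h4 : ∑ j ∈ Finset.range (N (k + 1)), (j : ℝ) ≤ (N (k + 1) : ℝ) * N (k + 1) / 2 := by
    have := Finset.sum_range_id_mul_two (N (k + 1))
    have h5 : (∑ j ∈ Finset.range (N (k + 1)), (j : ℝ)) * 2 = N (k + 1) * ((N (k + 1) - 1 : ℕ) : ℝ) := by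
      have h51 := congrArg (fun n : ℕ => (n : ℝ)) this
      simpa only [Nat.cast_mul, Nat.cast_sum, Nat.cast_ofNat] using h51
    have h6 : ((N (k + 1) - 1 : ℕ) : ℝ) ≤ N (k + 1) := by exact_mod_cast Nat.sub_le _ _
    nlinarith
  rw [← Finset.mul_sum] at h3
  calc (N (k + 1) : ℝ)⁻¹ * _ ≤ (N (k + 1) : ℝ)⁻¹ * (2 * Real.pi * |ξ| / (P N (k + 1) : ℝ) *
      ((N (k + 1) : ℝ) * N (k + 1) / 2)) := by
        have h7 : (0 : ℝ) ≤ 2 * Real.pi * |ξ| / (P N (k + 1) : ℝ) := by positivity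
        gcongr
        exact h3.trans (by gcongr)
    _ = Real.pi * |ξ| / (P N k : ℝ) := by
        rw [P_succ]; push_cast; field_simp

lemma prod_ge (a : ℕ → ℂ) (S : Finset ℕ) (ha : ∀ i ∈ S, ‖a i‖ ≤ 1) :
    1 - ∑ i ∈ S, ‖1 - a i‖ ≤ ‖∏ i ∈ S, a i‖ ∧ ‖∏ i ∈ S, a i‖ ≤ 1 := by
  induction S using Finset.induction_on with
  | empty => simp
  | insert i S hi ih =>
    obtain ⟨h1, h2⟩ := ih (fun j hj => ha j (Finset.mem_insert_of_mem hj))
    have h3 := ha i (Finset.mem_insert_self _ _)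
    rw [Finset.sum_insert hi, Finset.prod_insert hi, norm_mul]
    have h4 : 1 - ‖1 - a i‖ ≤ ‖a i‖ := by
      have := norm_sub_norm_le (1 : ℂ) (1 - a i)
      simp only [norm_one, sub_sub_cancel] at this
      exact this
    have h5 : 0 ≤ ‖1 - a i‖ := norm_nonneg _
    have h6 : 0 ≤ ‖∏ i ∈ S, a i‖ := norm_nonneg _
    have h7 : 0 ≤ ‖a i‖ := norm_nonneg _
    constructor
    · nlinarith
    · nlinarith

lemma geom_bound (K : ℕ) : ∑ j ∈ Finset.range K, (1 / 4 : ℝ) ^ j ≤ 4 / 3 := by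
  have h : ∀ K : ℕ, ∑ j ∈ Finset.range K, (1 / 4 : ℝ) ^ j = 4 / 3 - 4 / 3 * (1 / 4 : ℝ) ^ K := by
    intro K
    induction K with
    | zero => norm_num
    | succ K ih => rw [Finset.sum_range_succ, ih, pow_succ]; ring
  rw [h K]
  have : (0 : ℝ) ≤ (1 / 4 : ℝ) ^ K := by positivity
  linarith

end BB

open BB in
theorem b3 : S_B3 := by
  intro N hN n M hnM ξ hξ
  rcases Nat.eq_or_lt_of_le hnM with h | h
  · subst h
    simp
    norm_num
  rw [Finset.prod_eq_prod_Ico_succ_bot h, norm_mul]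
  have hP0 : (0 : ℝ) < (P N (2 * n) : ℝ) := by exact_mod_cast P_pos hN (2 * n)
  have hpi : Real.pi < 3.15 := Real.pi_lt_d2
  have hpi0 := Real.pi_pos
  have hterm : ∀ i, n ≤ i → ‖1 - m N (2 * i + 2) ξ‖ ≤ 9 * Real.pi / 32 * (1 / 4 : ℝ) ^ (i - n) := by
    intro i hi
    have h1 := norm_one_sub_m hN (2 * i + 1) ξ
    refine h1.trans ?_
    have h2 : (2 * 4 ^ (i - n) : ℝ) * (P N (2 * n) : ℝ) ≤ (P N (2 * i + 1) : ℝ) := by
      have := two_pow_mul_le hN (2 * n) (2 * (i - n) + 1)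
      rw [show 2 * n + (2 * (i - n) + 1) = 2 * i + 1 by omega] at this
      have h3 : (2 : ℕ) ^ (2 * (i - n) + 1) = 2 * 4 ^ (i - n) := by
        rw [pow_succ, pow_mul]; norm_num; ring
      rw [h3] at this
      exact_mod_cast this
    have hP1 : (0 : ℝ) < (P N (2 * i + 1) : ℝ) := by exact_mod_cast P_pos hN _
    rw [div_le_iff₀ hP1]
    have h4 : (0 : ℝ) < 4 ^ (i - n) := by positivity
    have h5 : 9 * Real.pi / 32 * (1 / 4 : ℝ) ^ (i - n) * ((2 * 4 ^ (i - n) : ℝ) * (P N (2 * n) : ℝ)) =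
        9 * Real.pi / 16 * (P N (2 * n) : ℝ) := by
      rw [one_div, inv_pow]
      field_simp
      ring
    calc Real.pi * |ξ| ≤ Real.pi * (9 / 16 * (P N (2 * n) : ℝ)) := by gcongr
      _ = 9 * Real.pi / 16 * (P N (2 * n) : ℝ) := by ring
      _ = _ := h5.symm
      _ ≤ _ := by gcongr
  have hA : 1 - 9 * Real.pi / 32 ≤ ‖m N (2 * n + 2) ξ‖ := by
    have h1 := hterm n le_rfl
    have := norm_sub_norm_le (1 : ℂ) (1 - m N (2 * n + 2) ξ)
    simp only [norm_one, sub_sub_cancel] at this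
    simp only [Nat.sub_self, pow_zero, mul_one] at h1
    linarith
  have hB : 1 - 9 * Real.pi / 32 * (1 / 3) ≤ ‖∏ i ∈ Finset.Ico (n + 1) M, m N (2 * i + 2) ξ‖ := by
    refine le_trans ?_ (prod_ge (fun i => m N (2 * i + 2) ξ) (Finset.Ico (n + 1) M)
      (fun i _ => norm_m_le hN (by omega) ξ)).1
    have h1 : ∑ i ∈ Finset.Ico (n + 1) M, ‖1 - m N (2 * i + 2) ξ‖ ≤
        ∑ i ∈ Finset.Ico (n + 1) M, 9 * Real.pi / 32 * (1 / 4 : ℝ) ^ (i - n) :=
      Finset.sum_le_sum fun i hi => hterm i (by have := Finset.mem_Ico.1 hi; omega)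
    rw [Finset.sum_Ico_eq_sum_range (fun i => 9 * Real.pi / 32 * (1 / 4 : ℝ) ^ (i - n))] at h1
    have h2 : ∑ k ∈ Finset.range (M - (n + 1)), 9 * Real.pi / 32 * (1 / 4 : ℝ) ^ (n + 1 + k - n) =
        9 * Real.pi / 32 * (1 / 4) * ∑ k ∈ Finset.range (M - (n + 1)), (1 / 4 : ℝ) ^ k := by
      rw [Finset.mul_sum]
      refine Finset.sum_congr rfl fun k _ => ?_
      rw [show n + 1 + k - n = k + 1 by omega, pow_succ]
      ring
    rw [h2] at h1
    have h3 := geom_bound (M - (n + 1))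
    have h4 : 9 * Real.pi / 32 * (1 / 4) * ∑ k ∈ Finset.range (M - (n + 1)), (1 / 4 : ℝ) ^ k ≤
        9 * Real.pi / 32 * (1 / 4) * (4 / 3) := by gcongr
    linarith
  have hA' : (1 / 10 : ℝ) ≤ ‖m N (2 * n + 2) ξ‖ := by
    refine le_trans ?_ hA
    linarith
  have hB' : (1 / 2 : ℝ) ≤ ‖∏ i ∈ Finset.Ico (n + 1) M, m N (2 * i + 2) ξ‖ := by
    refine le_trans ?_ hB
    linarith
  nlinarith

open BB in
theorem b4 : S_B4 := by
  intro N hN s hs ξ hlim
  by_contra hne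
  push Not at hne
  have hpi0 := Real.pi_pos
  have hterm : ∀ i, ‖1 - m N (2 * i + s) ξ‖ ≤ Real.pi * |ξ| * (1 / 4 : ℝ) ^ i := by
    intro i
    obtain ⟨t, rfl⟩ : ∃ t, s = t + 1 := ⟨s - 1, by omega⟩
    have h1 := norm_one_sub_m hN (2 * i + t) ξ
    rw [show 2 * i + (t + 1) = 2 * i + t + 1 by ring]
    refine h1.trans ?_
    have h2 : (4 : ℝ) ^ i ≤ (P N (2 * i + t) : ℝ) := by
      have := two_pow_mul_le hN 0 (2 * i + t)
      have h3 : P N 0 = 1 := by simp [P]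
      rw [h3, mul_one, zero_add] at this
      have h4 : (4 : ℕ) ^ i ≤ 2 ^ (2 * i + t) := by
        rw [pow_add, pow_mul]
        norm_num
        exact Nat.one_le_two_pow
      exact_mod_cast h4.trans this
    have h5 : (0 : ℝ) < 4 ^ i := by positivity
    have hP1 : (0 : ℝ) < (P N (2 * i + t) : ℝ) := by linarith
    rw [one_div, inv_pow, ← div_eq_mul_inv]
    gcongr
  obtain ⟨n0, hn0⟩ : ∃ n0 : ℕ, Real.pi * |ξ| * (4 / 3) * (1 / 4 : ℝ) ^ n0 ≤ 1 / 2 := by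
    have h1 : Tendsto (fun n : ℕ => Real.pi * |ξ| * (4 / 3) * (1 / 4 : ℝ) ^ n) atTop (𝓝 0) := by
      have := (tendsto_pow_atTop_nhds_zero_of_lt_one (r := (1 / 4 : ℝ)) (by norm_num)
        (by norm_num)).const_mul (Real.pi * |ξ| * (4 / 3))
      simpa using this
    exact ((h1.eventually (gt_mem_nhds (show (0 : ℝ) < 1 / 2 by norm_num))).exists).imp
      fun _ h => h.le
  have hlow : ∀ n, n0 ≤ n → ‖∏ i ∈ Finset.range n0, m N (2 * i + s) ξ‖ / 2 ≤
      ‖∏ i ∈ Finset.range n, m N (2 * i + s) ξ‖ := by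
    intro n hn
    rw [← Finset.prod_range_mul_prod_Ico _ hn, norm_mul]
    have h1 : (1 / 2 : ℝ) ≤ ‖∏ i ∈ Finset.Ico n0 n, m N (2 * i + s) ξ‖ := by
      refine le_trans ?_ (prod_ge (fun i => m N (2 * i + s) ξ) (Finset.Ico n0 n)
        (fun i _ => norm_m_le hN (by omega) ξ)).1
      have h2 : ∑ i ∈ Finset.Ico n0 n, ‖1 - m N (2 * i + s) ξ‖ ≤
          ∑ i ∈ Finset.Ico n0 n, Real.pi * |ξ| * (1 / 4 : ℝ) ^ i :=
        Finset.sum_le_sum fun i hi => hterm i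
      rw [Finset.sum_Ico_eq_sum_range (fun i => Real.pi * |ξ| * (1 / 4 : ℝ) ^ i)] at h2
      have h3 : ∑ k ∈ Finset.range (n - n0), Real.pi * |ξ| * (1 / 4 : ℝ) ^ (n0 + k) =
          Real.pi * |ξ| * (1 / 4) ^ n0 * ∑ k ∈ Finset.range (n - n0), (1 / 4 : ℝ) ^ k := by
        rw [Finset.mul_sum]
        refine Finset.sum_congr rfl fun k _ => ?_
        rw [pow_add]
        ring
      rw [h3] at h2
      have h4 := geom_bound (n - n0)
      have h5 : Real.pi * |ξ| * (1 / 4) ^ n0 * ∑ k ∈ Finset.range (n - n0), (1 / 4 : ℝ) ^ k ≤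
          Real.pi * |ξ| * (1 / 4) ^ n0 * (4 / 3) := by gcongr
      linarith
    have h0 : (0 : ℝ) ≤ ‖∏ i ∈ Finset.range n0, m N (2 * i + s) ξ‖ := norm_nonneg _
    nlinarith
  have h1 : ‖∏ i ∈ Finset.range n0, m N (2 * i + s) ξ‖ / 2 ≤ 0 := by
    have h2 := hlim.norm
    rw [norm_zero] at h2
    exact ge_of_tendsto h2 (by filter_upwards [eventually_ge_atTop n0] with n hn using hlow n hn)
  have h3 : 0 < ‖∏ i ∈ Finset.range n0, m N (2 * i + s) ξ‖ := by
    rw [norm_pos_iff]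
    exact Finset.prod_ne_zero_iff.2 fun i _ => hne i
  linarith

end Pool.Agent.R242.SP
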