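import Pool.Agent.R242.SP.Stmts

/-! Part C: Parseval's identity on a finite level. -/

set_option autoImplicit false

open Finset Matrix

namespace Pool.Agent.R242.SP

theorem s_C : S_C := by
  intro N hN n R hcard horth ξ
  classical
  set β := (i : Fin n) → Fin (N (2 * (i : ℕ) + 2)) with hβ
  have hNpos : ∀ i : ℕ, 0 < N (2 * i + 2) := fun i => by have := hN (2 * i + 2) (by omega); omega
  set K : ℕ := ∏ i ∈ range n, N (2 * i + 2) with hK
  have hKpos : 0 < K := prod_pos fun i _ => hNpos i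
  have hKC : (K : ℂ) ≠ 0 := by exact_mod_cast hKpos.ne'
  have hcardβ : Fintype.card β = K := by
    refine (Fintype.card_pi (α := fun i : Fin n => Fin (N (2 * (i : ℕ) + 2)))).trans ?_
    rw [hK, prod_range]
    exact prod_congr rfl fun i _ => Fintype.card_fin _
  set X : β → ℝ := fun f => ∑ i : Fin n, ((f i : ℕ) : ℝ) / (P N (2 * (i : ℕ) + 2) : ℝ) with hX
  set e : ℝ → ℂ := fun x => Complex.exp (2 * Real.pi * Complex.I * x) with he
  have e_add : ∀ x y, e (x + y) = e x * e y := by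
    intro x y
    simp only [he]
    rw [← Complex.exp_add]
    congr 1
    push_cast; ring
  have e_conj : ∀ x, (starRingEnd ℂ) (e x) = e (-x) := by
    intro x
    simp only [he]
    rw [← Complex.exp_conj]
    congr 1
    rw [map_mul, map_mul, map_mul, Complex.conj_I, Complex.conj_ofReal, Complex.conj_ofReal,
      map_ofNat]
    push_cast; ring
  have e_zero : e 0 = 1 := by simp [he]
  -- the product as a sum
  have hprod : ∀ η : ℝ, ∏ i ∈ range n, m N (2 * i + 2) η = (K : ℂ)⁻¹ * ∑ f : β, e (η * X f) := by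
    intro η
    rw [prod_range]
    have h1 : ∀ i : Fin n, m N (2 * (i : ℕ) + 2) η = (N (2 * (i : ℕ) + 2) : ℂ)⁻¹ *
        ∑ j : Fin (N (2 * (i : ℕ) + 2)), e (η * (((j : ℕ) : ℝ) / (P N (2 * (i : ℕ) + 2) : ℝ))) := by
      intro i
      rw [m, sum_range]
      congr 1
      refine sum_congr rfl fun j _ => ?_
      simp only [he]
      congr 1
      push_cast; ring
    simp only [h1]
    rw [prod_mul_distrib, prod_univ_sum, Fintype.piFinset_univ]
    congr 1
    · rw [hK, prod_range, Finset.prod_inv_distrib]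
      push_cast; rfl
    · refine sum_congr rfl fun f _ => ?_
      simp only [he, hX]
      rw [← Complex.exp_sum]
      congr 1
      push_cast
      rw [mul_sum, mul_sum]
  set V : Matrix R β ℂ := fun b f => e ((b : ℤ) * X f) with hV
  have hVV : V * Vᴴ = (K : ℂ) • (1 : Matrix R R ℂ) := by
    ext b b'
    rw [Matrix.mul_apply, Matrix.smul_apply, Matrix.one_apply]
    have h1 : ∀ f, V b f * Vᴴ f b' = e ((((b : ℤ) : ℝ) - ((b' : ℤ) : ℝ)) * X f) := by
      intro f
      rw [Matrix.conjTranspose_apply]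
      simp only [hV]
      rw [← starRingEnd_apply, e_conj, ← e_add]
      congr 1; ring
    simp only [h1]
    have h2 := hprod (((b : ℤ) : ℝ) - ((b' : ℤ) : ℝ))
    by_cases hbb : b = b'
    · subst hbb
      simp only [sub_self, zero_mul, e_zero, if_true]
      rw [sum_const, card_univ, hcardβ]
      simp
    · rw [if_neg hbb, smul_zero]
      rw [horth b b.2 b' b'.2 (fun h => hbb (Subtype.ext h))] at h2
      rcases mul_eq_zero.1 h2.symm with h3 | h3
      · exact absurd (inv_eq_zero.1 h3) hKC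
      · exact h3
  have hcardR : Fintype.card R = Fintype.card β := by
    rw [hcardβ, Fintype.card_coe, hcard]
  have hVV2 : Vᴴ * V = (K : ℂ) • (1 : Matrix β β ℂ) := by
    have h1 : ((K : ℂ)⁻¹ • V) * Vᴴ = 1 := by
      rw [Matrix.smul_mul, hVV, smul_smul, inv_mul_cancel₀ hKC, one_smul]
    have h2 := (Matrix.mul_eq_one_comm_of_card_eq _ _ _ hcardR).1 h1
    rw [Matrix.mul_smul] at h2
    rw [← h2, smul_smul, mul_inv_cancel₀ hKC, one_smul]
  set v : β → ℂ := fun f => e (ξ * X f) with hv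
  have h3 : ∀ b : R, ∏ i ∈ range n, m N (2 * i + 2) (ξ + ((b : ℤ) : ℝ)) =
      (K : ℂ)⁻¹ * (V *ᵥ v) b := by
    intro b
    rw [hprod]
    congr 1
    simp only [Matrix.mulVec, dotProduct, hV, hv]
    refine sum_congr rfl fun f _ => ?_
    rw [← e_add]
    congr 1; ring
  have h4 : ∑ b : R, (V *ᵥ v) b * (starRingEnd ℂ) ((V *ᵥ v) b) = (K : ℂ) * K := by
    have h5 : ∑ b : R, (V *ᵥ v) b * (starRingEnd ℂ) ((V *ᵥ v) b) = star (V *ᵥ v) ⬝ᵥ (V *ᵥ v) := by
      simp only [dotProduct, Pi.star_apply]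
      refine sum_congr rfl fun b _ => ?_
      rw [mul_comm]; rfl
    rw [h5, Matrix.star_mulVec, Matrix.dotProduct_mulVec, Matrix.vecMul_vecMul, hVV2,
      Matrix.vecMul_smul, Matrix.vecMul_one, smul_dotProduct]
    have h6 : star v ⬝ᵥ v = K := by
      simp only [dotProduct, Pi.star_apply]
      have : ∀ f, star (v f) * v f = 1 := by
        intro f
        show (starRingEnd ℂ) (e (ξ * X f)) * e (ξ * X f) = 1
        rw [e_conj, ← e_add, neg_add_cancel, e_zero]
      simp only [this]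
      rw [sum_const, card_univ, hcardβ]
      simp
    rw [h6, smul_eq_mul]
  have h5 : ∑ x ∈ R, ‖∏ i ∈ range n, m N (2 * i + 2) (ξ + (x : ℝ))‖ ^ 2 =
      ∑ b : R, ‖(K : ℂ)⁻¹ * (V *ᵥ v) b‖ ^ 2 := by
    rw [← sum_coe_sort R (fun x => ‖∏ i ∈ range n, m N (2 * i + 2) (ξ + ((x : ℤ) : ℝ))‖ ^ 2)]
    exact sum_congr rfl fun b _ => by rw [h3 b]
  have h6 : ((∑ b : R, ‖(K : ℂ)⁻¹ * (V *ᵥ v) b‖ ^ 2 : ℝ) : ℂ) = 1 := by
    push_cast
    have h7 : ∀ b : R, ((‖(K : ℂ)⁻¹ * (V *ᵥ v) b‖ : ℝ) : ℂ) ^ 2 =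
        ((K : ℂ)⁻¹ * (K : ℂ)⁻¹) * ((V *ᵥ v) b * (starRingEnd ℂ) ((V *ᵥ v) b)) := by
      intro b
      rw [← Complex.mul_conj', map_mul, map_inv₀, Complex.conj_natCast]
      ring
    simp only [h7]
    rw [← mul_sum, h4]
    field_simp
  rw [h5]
  exact_mod_cast h6

end Pool.Agent.R242.SP
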