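import Pool.Agent.R242.SP.Stmts

/-!
# Parts D and E: the criterion for spectra, orthogonality and maximality
-/

open MeasureTheory Filter Topology
open scoped ENNReal InnerProductSpace ComplexConjugate

namespace Pool.Agent.R242.SP

/-- The exponential `exp (2 π i a x)`. -/
noncomputable def ex (a : ℝ) (x : ℝ) : ℂ := Complex.exp (2 * Real.pi * Complex.I * a * x)

lemma norm_ex (a x : ℝ) : ‖ex a x‖ = 1 := by
  unfold ex
  have : (2 * Real.pi * Complex.I * a * x : ℂ) = ((2 * Real.pi * a * x : ℝ) : ℂ) * Complex.I := by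
    push_cast; ring
  rw [this, Complex.norm_exp_ofReal_mul_I]

lemma cont_ex (a : ℝ) : Continuous (ex a) := by
  unfold ex; fun_prop

lemma conj_ex (a x : ℝ) : conj (ex a x) = ex (-a) x := by
  unfold ex
  rw [← Complex.exp_conj]
  congr 1
  simp only [map_mul, Complex.conj_I, Complex.conj_ofReal, map_ofNat]
  push_cast; ring

lemma ex_mul (a b x : ℝ) : ex a x * ex b x = ex (a + b) x := by
  unfold ex
  rw [← Complex.exp_add]
  congr 1
  push_cast; ring

variable (μ : Measure ℝ) [IsProbabilityMeasure μ]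

lemma memLp_ex (a : ℝ) : MemLp (ex a) 2 μ :=
  MemLp.of_bound (cont_ex a).aestronglyMeasurable 1 (by simp [norm_ex])

/-- The class of the exponential in `L²`. -/
noncomputable def EE (a : ℝ) : Lp ℂ 2 μ := (memLp_ex μ a).toLp (ex a)

lemma coe_EE (a : ℝ) : (EE μ a : ℝ → ℂ) =ᵐ[μ] ex a := MemLp.coeFn_toLp _

omit [IsProbabilityMeasure μ] in
lemma ft_eq (ξ : ℝ) : ft μ ξ = ∫ x, ex ξ x ∂μ := rfl

lemma inner_EE (a b : ℝ) : inner ℂ (EE μ a) (EE μ b) = ft μ (b - a) := by
  rw [L2.inner_def, ft_eq]
  apply integral_congr_ae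
  filter_upwards [coe_EE μ a, coe_EE μ b] with x h1 h2
  rw [h1, h2, RCLike.inner_apply, conj_ex, ex_mul]
  congr 1

lemma inner_EE_left (a : ℝ) (f : Lp ℂ 2 μ) :
    inner ℂ (EE μ a) f = ∫ x, f x * ex (-a) x ∂μ := by
  rw [L2.inner_def]
  apply integral_congr_ae
  filter_upwards [coe_EE μ a] with x h1
  rw [h1, RCLike.inner_apply, conj_ex]

lemma ft_zero : ft μ 0 = 1 := by
  simp [ft]

lemma norm_EE (a : ℝ) : ‖EE μ a‖ = 1 := by
  have h := inner_EE μ a a
  rw [sub_self, ft_zero, inner_self_eq_norm_sq_to_K] at h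
  have h2 : ((‖EE μ a‖ ^ 2 : ℝ) : ℂ) = ((1 : ℝ) : ℂ) := by push_cast; exact h
  have h3 := Complex.ofReal_injective h2
  nlinarith [norm_nonneg (EE μ a)]

lemma norm_ft_neg (a : ℝ) : ‖ft μ (-a)‖ = ‖ft μ a‖ := by
  have h := inner_EE μ a 0
  have h2 := inner_EE μ 0 a
  rw [zero_sub] at h
  rw [sub_zero] at h2
  rw [← h, ← h2, ← inner_conj_symm, RCLike.norm_conj]

/-- Part E. -/
theorem e : S_E := by
  intro μ _ Λ hΛ
  obtain ⟨-, b, hb⟩ := hΛ
  have hb' : ∀ l : Λ, b l = EE μ l := by
    intro l
    apply Lp.ext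
    exact (hb l).trans (coe_EE μ l).symm
  refine ⟨?_, ?_⟩
  · intro x hx y hy hxy
    have h := b.orthonormal.2 (i := ⟨y, hy⟩) (j := ⟨x, hx⟩) (by
      intro h; exact hxy (congrArg Subtype.val h).symm)
    have h' : inner ℂ (b ⟨y, hy⟩) (b ⟨x, hx⟩) = 0 := h
    rw [hb', hb', inner_EE] at h'
    exact h'
  · intro t ht
    by_contra hcon
    push Not at hcon
    have h0 : b.repr (EE μ t) = 0 := by
      ext l
      rw [b.repr_apply_apply, hb', inner_EE]
      exact hcon l l.2
    have h1 : EE μ t = 0 := by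
      simpa using h0
    have h2 := norm_EE μ t
    rw [h1, norm_zero] at h2
    exact zero_ne_one h2

/-- A real integrable function whose Fourier transform vanishes is zero. -/
lemma real_zero (h : ℝ → ℝ) (hh : Integrable h μ)
    (h0 : ∀ a : ℝ, ∫ x, (h x : ℂ) * ex a x ∂μ = 0) : h =ᵐ[μ] 0 := by
  have hm := hh.aestronglyMeasurable.aemeasurable
  have hm1 : AEMeasurable (fun x => ENNReal.ofReal (h x)) μ := hm.ennreal_ofReal
  have hm2 : AEMeasurable (fun x => ENNReal.ofReal (-h x)) μ := hm.neg.ennreal_ofReal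
  have hbd : ∀ (g : ℝ → ℝ) (t : ℝ), Integrable g μ →
      Integrable (fun x => g x • Complex.exp (t * x * Complex.I)) μ := by
    intro g t hg
    refine Integrable.smul_bdd (C := 1) hg ?_ ?_
    · exact (by fun_prop : Continuous fun x : ℝ => Complex.exp (t * x * Complex.I)).aestronglyMeasurable
    · filter_upwards with x
      have : (t * x * Complex.I : ℂ) = ((t * x : ℝ) : ℂ) * Complex.I := by push_cast; ring
      rw [this, Complex.norm_exp_ofReal_mul_I]
  have f1 : IsFiniteMeasure (μ.withDensity (fun x => ENNReal.ofReal (h x))) :=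
    isFiniteMeasure_withDensity_ofReal hh.2
  have f2 : IsFiniteMeasure (μ.withDensity (fun x => ENNReal.ofReal (-h x))) :=
    isFiniteMeasure_withDensity_ofReal hh.neg.2
  have key : μ.withDensity (fun x => ENNReal.ofReal (h x)) =
      μ.withDensity (fun x => ENNReal.ofReal (-h x)) := by
    apply Measure.ext_of_charFun
    ext t
    rw [charFun_apply_real, charFun_apply_real,
      integral_withDensity_eq_integral_toReal_smul₀ hm1 (by simp),
      integral_withDensity_eq_integral_toReal_smul₀ hm2 (by simp),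
      ← sub_eq_zero]
    have i1 : Integrable (fun x => (ENNReal.ofReal (h x)).toReal • Complex.exp (t * x * Complex.I)) μ := by
      have hb : Integrable (fun x => (ENNReal.ofReal (h x)).toReal) μ := by
        have := hh.pos_part
        refine this.congr (Filter.Eventually.of_forall fun x => ?_)
        simp only [ENNReal.toReal_ofReal']
      exact hbd _ t hb
    have i2 : Integrable (fun x => (ENNReal.ofReal (-h x)).toReal • Complex.exp (t * x * Complex.I)) μ := by
      have hb : Integrable (fun x => (ENNReal.ofReal (-h x)).toReal) μ := by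
        have := hh.neg.pos_part
        refine this.congr (Filter.Eventually.of_forall fun x => ?_)
        simp only [ENNReal.toReal_ofReal', Pi.neg_apply]
      exact hbd _ t hb
    rw [← integral_sub i1 i2, ← h0 (t / (2 * Real.pi))]
    apply integral_congr_ae
    filter_upwards with x
    rw [ENNReal.toReal_ofReal', ENNReal.toReal_ofReal', ← sub_smul]
    have e1 : max (h x) 0 - max (-h x) 0 = h x := by
      rcases le_total (h x) 0 with h1 | h1
      · rw [max_eq_right h1, max_eq_left (by linarith)]; ring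
      · rw [max_eq_left h1, max_eq_right (by linarith)]; ring
    rw [e1, Complex.real_smul]
    congr 1
    unfold ex
    congr 1
    have := Real.pi_ne_zero
    have h2 : (Real.pi : ℂ) ≠ 0 := by exact_mod_cast this
    push_cast
    field_simp
  rw [withDensity_eq_iff hm1 hm2] at key
  · filter_upwards [key] with x hx
    have hx2 := congrArg ENNReal.toReal hx
    rw [ENNReal.toReal_ofReal', ENNReal.toReal_ofReal'] at hx2
    show h x = 0
    rcases le_total (h x) 0 with h1 | h1
    · rw [max_eq_right h1, max_eq_left (by linarith)] at hx2; linarith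
    · rw [max_eq_left h1, max_eq_right (by linarith)] at hx2; linarith
  · exact hh.lintegral_lt_top.ne

/-- A function in `L²` which is orthogonal to all the exponentials is zero. -/
lemma lp_zero (f : Lp ℂ 2 μ) (h0 : ∀ a : ℝ, inner ℂ (EE μ a) f = 0) : f = 0 := by
  have hf1 : Integrable (f : ℝ → ℂ) μ := (Lp.memLp f).integrable (by norm_num)
  have k1 : ∀ a : ℝ, ∫ x, f x * ex a x ∂μ = 0 := by
    intro a
    have := h0 (-a)
    rw [inner_EE_left, neg_neg] at this
    exact this
  have k2 : ∀ a : ℝ, ∫ x, conj (f x) * ex a x ∂μ = 0 := by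
    intro a
    have h1 := congrArg conj (k1 (-a))
    rw [← integral_conj, map_zero] at h1
    rw [← h1]
    apply integral_congr_ae
    filter_upwards with x
    rw [map_mul, conj_ex, neg_neg]
  have hi : ∀ (g : ℝ → ℂ), Integrable g μ → ∀ a, Integrable (fun x => g x * ex a x) μ := by
    intro g hg a
    refine Integrable.mul_bdd (c := 1) hg (cont_ex a).aestronglyMeasurable ?_
    filter_upwards with x
    rw [norm_ex]
  have hfc : Integrable (fun x => conj (f x)) μ := by
    rw [← integrable_norm_iff]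
    · simpa using hf1.norm
    · exact Complex.continuous_conj.comp_aestronglyMeasurable hf1.aestronglyMeasurable
  have r1 : (fun x => (f x).re) =ᵐ[μ] 0 := by
    apply real_zero μ _ hf1.re
    intro a
    have : ∀ x, (((f x).re : ℝ) : ℂ) * ex a x = (1 / 2 : ℂ) * (f x * ex a x + conj (f x) * ex a x) := by
      intro x
      rw [Complex.re_eq_add_conj]; ring
    show ∫ x, (((f x).re : ℝ) : ℂ) * ex a x ∂μ = 0
    simp_rw [this]
    rw [integral_const_mul, integral_add (hi _ hf1 a) (hi _ hfc a), k1, k2]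
    simp
  have r2 : (fun x => (f x).im) =ᵐ[μ] 0 := by
    apply real_zero μ _ hf1.im
    intro a
    have : ∀ x, (((f x).im : ℝ) : ℂ) * ex a x =
        (1 / (2 * Complex.I) : ℂ) * (f x * ex a x - conj (f x) * ex a x) := by
      intro x
      rw [Complex.im_eq_sub_conj]; ring
    show ∫ x, (((f x).im : ℝ) : ℂ) * ex a x ∂μ = 0
    simp_rw [this]
    rw [integral_const_mul, integral_sub (hi _ hf1 a) (hi _ hfc a), k1, k2]
    simp
  rw [Lp.eq_zero_iff_ae_eq_zero]
  filter_upwards [r1, r2] with x h1 h2
  exact Complex.ext h1 h2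

/-- Part D. -/
theorem d : S_D := by
  intro ν _ Γ horth hpars t
  refine ⟨(Set.to_countable Γ).image _, ?_⟩
  set G : Set ℝ := (fun x : ℤ => (x : ℝ) + t) '' Γ with hG
  have hft : ∀ g ∈ G, ∀ g' ∈ G, g ≠ g' → ft ν (g' - g) = 0 := by
    rintro g ⟨x, hx, rfl⟩ g' ⟨y, hy, rfl⟩ hne
    have : ft ν ((y : ℝ) - x) = 0 := by
      apply horth y hy x hx
      rintro rfl; exact hne rfl
    simpa using this
  have hon : Orthonormal ℂ (fun g : G => EE ν g) := by
    constructor
    · intro g; exact norm_EE ν _
    · intro g g' hne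
      show inner ℂ (EE ν g) (EE ν g') = 0
      rw [inner_EE]
      exact hft g g.2 g' g'.2 (fun h => hne (Subtype.ext h))
  have hbot : (Submodule.span ℂ (Set.range (fun g : G => EE ν g)))ᗮ = ⊥ := by
    rw [Submodule.eq_bot_iff]
    intro f hf
    apply lp_zero ν f
    intro a
    rw [Submodule.mem_orthogonal] at hf
    have hfx : ∀ x ∈ Γ, inner ℂ (EE ν ((x : ℝ) + t)) f = 0 := fun x hx =>
      hf _ (Submodule.subset_span ⟨⟨(x : ℝ) + t, x, hx, rfl⟩, rfl⟩)
    -- the norm is bounded by every positive number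
    have hb : ∀ ε : ℝ, 0 < ε → ‖inner ℂ (EE ν a) f‖ ≤ Real.sqrt ε * ‖f‖ := by
      intro ε hε
      obtain ⟨F, hF, hS⟩ := hpars (t - a) ε hε
      set w : Lp ℂ 2 ν := ∑ x ∈ F, (inner ℂ (EE ν ((x : ℝ) + t)) (EE ν a)) • EE ν ((x : ℝ) + t) with hw
      have hwf : inner ℂ w f = 0 := by
        rw [hw, sum_inner]
        apply Finset.sum_eq_zero
        intro x hx
        rw [inner_smul_left, hfx x (hF x hx), mul_zero]
      have hort : ∀ x ∈ F, ∀ y ∈ F, x ≠ y →
          inner ℂ (EE ν ((x : ℝ) + t)) (EE ν ((y : ℝ) + t)) = 0 := by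
        intro x hx y hy hne
        rw [inner_EE]
        have : ft ν ((y : ℝ) - x) = 0 := horth y (hF y hy) x (hF x hx) (Ne.symm hne)
        simpa using this
      have hself : ∀ b : ℝ, inner ℂ (EE ν b) (EE ν b) = (1 : ℂ) := by
        intro b
        rw [inner_EE, sub_self, ft_zero]
      set T : ℂ := ∑ x ∈ F, conj (inner ℂ (EE ν ((x : ℝ) + t)) (EE ν a)) *
        (inner ℂ (EE ν ((x : ℝ) + t)) (EE ν a)) with hT
      have t1 : inner ℂ w (EE ν a) = T := by
        rw [hw, sum_inner]
        simp_rw [inner_smul_left]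
        rfl
      have t2 : inner ℂ (EE ν a) w = T := by
        rw [hw, inner_sum]
        apply Finset.sum_congr rfl
        intro x hx
        rw [inner_smul_right, ← inner_conj_symm (EE ν a), mul_comm]
      have t3 : inner ℂ w w = T := by
        conv_lhs => rw [hw]
        rw [sum_inner]
        apply Finset.sum_congr rfl
        intro x hx
        rw [inner_smul_left]
        congr 1
        rw [← hw, hw, inner_sum, Finset.sum_eq_single x]
        · rw [inner_smul_right, hself, mul_one]
        · intro y hy hne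
          rw [inner_smul_right, hort x hx y hy (Ne.symm hne), mul_zero]
        · intro h; exact absurd hx h
      have t4 : inner ℂ (EE ν a - w) (EE ν a - w) = 1 - T := by
        rw [inner_sub_left, inner_sub_right, inner_sub_right, t1, t2, t3, hself]; ring
      have t5 : T = ((∑ x ∈ F, ‖ft ν (t - a + x)‖ ^ 2 : ℝ) : ℂ) := by
        rw [hT]
        push_cast
        apply Finset.sum_congr rfl
        intro x hx
        rw [inner_EE, ← Complex.normSq_eq_conj_mul_self, Complex.normSq_eq_norm_sq]
        push_cast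
        congr 2
        rw [← norm_ft_neg]
        congr 2
        ring
      rw [inner_self_eq_norm_sq_to_K, t5] at t4
      have t6 : ((‖EE ν a - w‖ ^ 2 : ℝ) : ℂ) = ((1 - ∑ x ∈ F, ‖ft ν (t - a + x)‖ ^ 2 : ℝ) : ℂ) := by
        rw [Complex.ofReal_sub, Complex.ofReal_one, ← t4]; push_cast; rfl
      have t7 := Complex.ofReal_injective t6
      have hnorm : ‖EE ν a - w‖ ^ 2 ≤ ε := t7.le.trans (sub_le_comm.mp hS)
      have h1 : inner ℂ (EE ν a) f = inner ℂ (EE ν a - w) f := by
        rw [inner_sub_left, hwf, sub_zero]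
      rw [h1]
      refine (norm_inner_le_norm _ _).trans ?_
      apply mul_le_mul_of_nonneg_right _ (norm_nonneg _)
      exact Real.le_sqrt_of_sq_le hnorm
    by_contra hne
    have hpos : 0 < ‖inner ℂ (EE ν a) f‖ := norm_pos_iff.mpr hne
    have hfpos : 0 < ‖f‖ := by
      by_contra h
      have : ‖f‖ = 0 := le_antisymm (not_lt.mp h) (norm_nonneg _)
      have h2 := norm_inner_le_norm (𝕜 := ℂ) (EE ν a) f
      rw [this, mul_zero] at h2
      linarith
    set c := ‖inner ℂ (EE ν a) f‖ with hc
    have h3 := hb ((c / (2 * ‖f‖)) ^ 2) (by positivity)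
    rw [Real.sqrt_sq (by positivity)] at h3
    have : c / (2 * ‖f‖) * ‖f‖ = c / 2 := by field_simp
    rw [this] at h3
    linarith
  refine ⟨HilbertBasis.mkOfOrthogonalEqBot hon hbot, ?_⟩
  intro l
  rw [HilbertBasis.coe_mkOfOrthogonalEqBot]
  exact coe_EE ν l

end Pool.Agent.R242.SP
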