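import Mathlib

/-!
# Complementary spectra for the type II factorisations of Lebesgue measure: definitions

`P N k = N_1 ⋯ N_k`; `nu N k` is the uniform measure on the points `j / (N_1 ⋯ N_k)`, `0 ≤ j < N_k`;
`part N s n = ν_s * ν_{s+2} * ⋯ * ν_{s+2(n-1)}` (`s = 1`: odd indices, `s = 2`: even indices).
-/

open MeasureTheory Filter Topology
open scoped ENNReal

namespace Pool.Agent.R242.SP

/-- `P N k = N_1 ⋯ N_k`, `P N 0 = 1`. -/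
def P (N : ℕ → ℕ) (k : ℕ) : ℕ := ∏ i ∈ Finset.range k, N (i + 1)

/-- `ν_k = (1 / N_k) ∑_{j < N_k} δ_{j / (N_1 ⋯ N_k)}`. -/
noncomputable def nu (N : ℕ → ℕ) (k : ℕ) : Measure ℝ :=
  ((N k : ℝ≥0∞)⁻¹) • ∑ j ∈ Finset.range (N k), Measure.dirac ((j : ℝ) / (P N k : ℝ))

/-- The convolution `ν_s * ν_{s+2} * ⋯ * ν_{s+2(n-1)}`. -/
noncomputable def part (N : ℕ → ℕ) (s : ℕ) : ℕ → Measure ℝ
  | 0 => Measure.dirac 0
  | n + 1 => Measure.conv (part N s n) (nu N (2 * n + s))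

/-- Weak convergence of `p n` to `μ` (bounded continuous test functions). -/
def IsWeakLimit (p : ℕ → Measure ℝ) (μ : Measure ℝ) : Prop :=
  ∀ f : BoundedContinuousFunction ℝ ℝ, Tendsto (fun n => ∫ x, f x ∂(p n)) atTop (𝓝 (∫ x, f x ∂μ))

/-- `Λ` is a spectrum of `μ`: the exponentials `exp (2 π i l x)`, `l ∈ Λ`, are an orthonormal basis
of `L²(μ)`. -/
def IsSpectrum (μ : Measure ℝ) (Λ : Set ℝ) : Prop :=
  Λ.Countable ∧ ∃ b : HilbertBasis Λ ℂ (Lp ℂ 2 μ), ∀ l : Λ,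
    (b l : ℝ → ℂ) =ᵐ[μ] fun x => Complex.exp (2 * Real.pi * Complex.I * (l : ℝ) * x)

/-- The Fourier transform `∫ exp (2 π i ξ x) dμ(x)`. -/
noncomputable def ft (μ : Measure ℝ) (ξ : ℝ) : ℂ :=
  ∫ x, Complex.exp (2 * Real.pi * Complex.I * ξ * x) ∂μ

/-- The Fourier transform of `ν_k`. -/
noncomputable def m (N : ℕ → ℕ) (k : ℕ) (ξ : ℝ) : ℂ :=
  (N k : ℂ)⁻¹ * ∑ j ∈ Finset.range (N k), Complex.exp (2 * Real.pi * Complex.I * ξ * (j / (P N k : ℂ)))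

/-- `z` first differs from `0` at a position `2 i + s`: `N_1 ⋯ N_{2i+s-1} ∣ z`,
`N_1 ⋯ N_{2i+s} ∤ z`. -/
def Dif (N : ℕ → ℕ) (s : ℕ) (z : ℤ) : Prop :=
  ∃ i : ℕ, ((P N (2 * i + s - 1) : ℕ) : ℤ) ∣ z ∧ ¬ ((P N (2 * i + s) : ℕ) : ℤ) ∣ z

end Pool.Agent.R242.SP
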