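import Pool.Agent.R242.SP.Stmts

open MeasureTheory Filter Topology
open scoped ENNReal

namespace Pool.Agent.R242.SP

lemma P_succ (N : ℕ → ℕ) (k : ℕ) : P N (k + 1) = P N k * N (k + 1) := by
  simp [P, Finset.prod_range_succ]

lemma P_pred (N : ℕ → ℕ) {k : ℕ} (hk : 1 ≤ k) : P N k = P N (k - 1) * N k := by
  obtain ⟨l, rfl⟩ : ∃ l, k = l + 1 := ⟨k - 1, by omega⟩
  simpa using P_succ N l

lemma P_pos {N : ℕ → ℕ} (hN : ∀ k, 1 ≤ k → 2 ≤ N k) (k : ℕ) : 0 < P N k := by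
  unfold P
  exact Finset.prod_pos fun i _ => by have := hN (i + 1) (by omega); omega

lemma two_pow_le_P {N : ℕ → ℕ} (hN : ∀ k, 1 ≤ k → 2 ≤ N k) (k : ℕ) : 2 ^ k ≤ P N k := by
  induction k with
  | zero => simp [P]
  | succ k ih =>
    rw [P_succ, pow_succ]
    exact Nat.mul_le_mul ih (hN _ (by omega))

lemma m_int (hB2 : S_B2) {N : ℕ → ℕ} (hN : ∀ k, 1 ≤ k → 2 ≤ N k) {k : ℕ} (hk : 1 ≤ k) (z : ℤ) :
    m N k (z : ℝ) = 0 ↔ ((P N (k - 1) : ℕ) : ℤ) ∣ z ∧ ¬ ((P N k : ℕ) : ℤ) ∣ z := by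
  rw [hB2 N hN k hk]
  have hpos : (0 : ℤ) < (P N (k - 1) : ℤ) := by exact_mod_cast P_pos hN (k - 1)
  constructor
  · rintro ⟨a, ha, hna⟩
    have hz : z = a * (P N (k - 1) : ℤ) := by exact_mod_cast ha
    refine ⟨⟨a, by rw [hz]; ring⟩, ?_⟩
    rw [P_pred N hk, hz]
    push_cast
    rw [mul_comm a, mul_dvd_mul_iff_left hpos.ne']
    exact hna
  · rintro ⟨⟨a, ha⟩, hn⟩
    refine ⟨a, ?_, ?_⟩
    · rw [ha]; push_cast; ring
    · intro h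
      apply hn
      rw [P_pred N hk, ha]
      push_cast
      exact mul_dvd_mul_left _ h

lemma ft_zero_of_factor (hB1 : S_B1) {N : ℕ → ℕ} (hN : ∀ k, 1 ≤ k → 2 ≤ N k) {s : ℕ} (hs : 1 ≤ s)
    {μ : Measure ℝ} [IsProbabilityMeasure μ] (hμ : IsWeakLimit (part N s) μ) {ξ : ℝ} {i : ℕ}
    (h : m N (2 * i + s) ξ = 0) : ft μ ξ = 0 := by
  have h1 := hB1 N hN s hs μ hμ ξ
  refine tendsto_nhds_unique h1 ?_
  refine tendsto_const_nhds.congr' ?_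
  filter_upwards [eventually_gt_atTop i] with n hn
  exact (Finset.prod_eq_zero (Finset.mem_range.2 hn) h).symm

lemma factor_of_ft_zero (hB1 : S_B1) (hB4 : S_B4) {N : ℕ → ℕ} (hN : ∀ k, 1 ≤ k → 2 ≤ N k) {s : ℕ}
    (hs : 1 ≤ s) {μ : Measure ℝ} [IsProbabilityMeasure μ] (hμ : IsWeakLimit (part N s) μ) {ξ : ℝ}
    (h : ft μ ξ = 0) : ∃ i, m N (2 * i + s) ξ = 0 := by
  have h1 := hB1 N hN s hs μ hμ ξ
  rw [h] at h1
  exact hB4 N hN s hs ξ h1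

/-- The finite products. -/
noncomputable def V (N : ℕ → ℕ) (n : ℕ) (ξ : ℝ) : ℂ := ∏ i ∈ Finset.range n, m N (2 * i + 2) ξ

lemma V_le_ft (hB1 : S_B1) (hB3 : S_B3) {N : ℕ → ℕ} (hN : ∀ k, 1 ≤ k → 2 ≤ N k)
    {ν : Measure ℝ} [IsProbabilityMeasure ν] (hν : IsWeakLimit (part N 2) ν) {n : ℕ} {ξ : ℝ}
    (hξ : |ξ| ≤ 9 / 16 * (P N (2 * n) : ℝ)) : ‖V N n ξ‖ ≤ 20 * ‖ft ν ξ‖ := by
  have h1 := (hB1 N hN 2 (by norm_num) ν hν ξ).norm
  have h2 : ∀ᶠ M in atTop, ‖V N n ξ‖ / 20 ≤ ‖∏ i ∈ Finset.range M, m N (2 * i + 2) ξ‖ := by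
    filter_upwards [eventually_ge_atTop n] with M hM
    rw [← Finset.prod_range_mul_prod_Ico _ hM, norm_mul]
    have h3 := hB3 N hN n M hM ξ hξ
    have h4 : (0 : ℝ) ≤ ‖V N n ξ‖ := norm_nonneg _
    calc ‖V N n ξ‖ / 20 = ‖V N n ξ‖ * (1 / 20) := by ring
      _ ≤ _ := mul_le_mul_of_nonneg_left h3 h4
  have h5 := ge_of_tendsto h1 h2
  linarith

lemma exists_finset (hB1 : S_B1) (hB2 : S_B2) (hB3 : S_B3) (hC : S_C)
    {N : ℕ → ℕ} (hN : ∀ k, 1 ≤ k → 2 ≤ N k)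
    {ν : Measure ℝ} [IsProbabilityMeasure ν] (hν : IsWeakLimit (part N 2) ν)
    (R : ℕ → Finset ℤ) (L : ℕ → ℕ) (hL : StrictMono L) (hR : ∀ j, R j ⊆ R (j + 1))
    (ho : ∀ j, ∀ x ∈ R j, ∀ y ∈ R j, x ≠ y →
      ∃ i < L j, ((P N (2 * i + 1) : ℕ) : ℤ) ∣ x - y ∧ ¬ ((P N (2 * i + 2) : ℕ) : ℤ) ∣ x - y)
    (hc : ∀ j, (R j).card = ∏ i ∈ Finset.range (L j), N (2 * i + 2))
    (hb : ∀ j, ∀ x ∈ R j, 2 * |x| ≤ ((P N (2 * L j) : ℕ) : ℤ)) (ξ : ℝ) (ε : ℝ) (hε : 0 < ε) :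
    ∃ j, 1 - ε ≤ ∑ x ∈ R j, ‖ft ν (ξ + x)‖ ^ 2 := by
  have hmono : Monotone R := monotone_nat_of_le_succ hR
  have hsum : ∀ j, ∑ x ∈ R j, ‖V N (L j) (ξ + x)‖ ^ 2 = 1 := by
    intro j
    refine hC N hN (L j) (R j) (hc j) ?_ ξ
    intro x hx y hy hxy
    obtain ⟨i, hi, h1, h2⟩ := ho j x hx y hy hxy
    refine Finset.prod_eq_zero (Finset.mem_range.2 hi) ?_
    have := (m_int hB2 hN (k := 2 * i + 2) (by omega) (x - y)).2 ⟨by simpa using h1, h2⟩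
    simpa using this
  have hLt : Tendsto L atTop atTop := hL.tendsto_atTop
  have hVt : ∀ x : ℤ, Tendsto (fun n => ‖V N (L n) (ξ + x)‖ ^ 2) atTop (𝓝 (‖ft ν (ξ + x)‖ ^ 2)) := by
    intro x
    have h1 := ((hB1 N hN 2 (by norm_num) ν hν (ξ + x)).norm.pow 2)
    exact h1.comp hLt
  set q : ℕ → ℝ := fun j => ∑ x ∈ R j, ‖ft ν (ξ + x)‖ ^ 2 with hq
  have hqt : ∀ j, Tendsto (fun n => ∑ x ∈ R j, ‖V N (L n) (ξ + x)‖ ^ 2) atTop (𝓝 (q j)) :=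
    fun j => tendsto_finsetSum _ fun x _ => hVt x
  have hq1 : ∀ j, q j ≤ 1 := by
    intro j
    refine le_of_tendsto (hqt j) ?_
    filter_upwards [eventually_ge_atTop j] with n hn
    rw [← hsum n]
    exact Finset.sum_le_sum_of_subset_of_nonneg (hmono hn) fun _ _ _ => by positivity
  have hqm : Monotone q := by
    intro i j hij
    exact Finset.sum_le_sum_of_subset_of_nonneg (hmono hij) fun _ _ _ => by positivity
  have hbdd : BddAbove (Set.range q) := ⟨1, by rintro _ ⟨j, rfl⟩; exact hq1 j⟩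
  have hqlim := tendsto_atTop_ciSup hqm hbdd
  set Q := ⨆ j, q j with hQ
  have hqQ : ∀ j, q j ≤ Q := fun j => le_ciSup hbdd j
  by_contra hcon
  push Not at hcon
  -- choose j with Q - q j small
  obtain ⟨j, hj⟩ : ∃ j, Q - ε / 1600 < q j := by
    have := hqlim.eventually (lt_mem_nhds (show Q - ε / 1600 < Q by linarith))
    exact this.exists
  -- large P
  have hPt : ∀ᶠ n in atTop, |ξ| ≤ 1 / 16 * (P N (2 * L n) : ℝ) := by
    have h1 : Tendsto (fun n => (2 : ℝ) ^ (2 * L n)) atTop atTop := by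
      refine (tendsto_pow_atTop_atTop_of_one_lt (by norm_num)).comp ?_
      exact Tendsto.const_mul_atTop' (by norm_num) hLt
    filter_upwards [h1.eventually_ge_atTop (16 * |ξ|)] with n hn
    have h2 : ((2 : ℝ) ^ (2 * L n)) ≤ (P N (2 * L n) : ℝ) := by
      exact_mod_cast two_pow_le_P hN (2 * L n)
    linarith
  have h2 : ∀ᶠ n in atTop, ∑ x ∈ R j, ‖V N (L n) (ξ + x)‖ ^ 2 < q j + ε / 4 :=
    (hqt j).eventually (gt_mem_nhds (by linarith))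
  obtain ⟨n, hn1, hn2, hn3⟩ := (hPt.and (h2.and (eventually_ge_atTop j))).exists
  have h3 : ∑ x ∈ R n \ R j, ‖V N (L n) (ξ + x)‖ ^ 2 ≤ 400 * (q n - q j) := by
    have h4 : q n - q j = ∑ x ∈ R n \ R j, ‖ft ν (ξ + x)‖ ^ 2 := by
      rw [hq]; simp only
      rw [← Finset.sum_sdiff (hmono hn3)]
      ring
    rw [h4, Finset.mul_sum]
    refine Finset.sum_le_sum fun x hx => ?_
    have hxn := (Finset.mem_sdiff.1 hx).1
    have h5 := hb n x hxn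
    have h6 : |ξ + x| ≤ 9 / 16 * (P N (2 * L n) : ℝ) := by
      have h7 : (2 : ℝ) * |(x : ℝ)| ≤ (P N (2 * L n) : ℝ) := by exact_mod_cast h5
      calc |ξ + x| ≤ |ξ| + |(x : ℝ)| := abs_add_le _ _
        _ ≤ 1 / 16 * (P N (2 * L n) : ℝ) + 1 / 2 * (P N (2 * L n) : ℝ) := by linarith
        _ = _ := by ring
    have h8 := V_le_ft hB1 hB3 hN hν h6
    have h9 : (0 : ℝ) ≤ ‖V N (L n) (ξ + x)‖ := norm_nonneg _
    nlinarith [norm_nonneg (ft ν (ξ + x))]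
  have h10 := hsum n
  rw [← Finset.sum_sdiff (hmono hn3)] at h10
  have h11 := hcon j
  have h12 := hqQ n
  have h13 : q j < 1 - ε := h11
  linarith

theorem main (hA : S_A) (hB1 : S_B1) (hB2 : S_B2) (hB3 : S_B3) (hB4 : S_B4) (hC : S_C) (hD : S_D)
    (hE : S_E) (N : ℕ → ℕ) (hN : ∀ k, 1 ≤ k → 2 ≤ N k) (μ ν : Measure ℝ)
    [IsProbabilityMeasure μ] [IsProbabilityMeasure ν]
    (hμ : IsWeakLimit (part N 1) μ) (hν : IsWeakLimit (part N 2) ν)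
    (Λ : Set ℝ) (hΛ : IsSpectrum μ Λ) :
    ∃ Γ : Set ℝ, IsSpectrum ν Γ ∧
      (∀ z : ℤ, ∃! p : ℝ × ℝ, p.1 ∈ Λ ∧ p.2 ∈ Γ ∧ p.1 + p.2 = z) ∧
      (∀ x ∈ Λ, ∀ y ∈ Γ, ∃ z : ℤ, x + y = z) := by
  obtain ⟨hE1, hE2⟩ := hE μ Λ hΛ
  obtain ⟨t, ht⟩ : Λ.Nonempty := by
    by_contra hne
    rw [Set.not_nonempty_iff_eq_empty] at hne
    obtain ⟨x, hx, -⟩ := hE2 0 (by simp [hne])
    simp [hne] at hx
  -- integrality
  have hint : ∀ x ∈ Λ, ∃ z : ℤ, x = t + z := by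
    intro x hx
    by_cases hxt : x = t
    · exact ⟨0, by simp [hxt]⟩
    · obtain ⟨i, hi⟩ := factor_of_ft_zero hB1 hB4 hN le_rfl hμ (hE1 x hx t ht hxt)
      obtain ⟨a, ha, -⟩ := (hB2 N hN (2 * i + 1) (by omega) _).1 hi
      refine ⟨a * (P N (2 * i) : ℤ), ?_⟩
      have ha' : x - t = a * (P N (2 * i) : ℝ) := by simpa using ha
      push_cast
      linarith
  set Λ' : Set ℤ := {z | t + (z : ℝ) ∈ Λ} with hΛ'
  have hne' : Λ'.Nonempty := ⟨0, by simpa [hΛ'] using ht⟩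
  have hd1 : ∀ x ∈ Λ', ∀ y ∈ Λ', x ≠ y → Dif N 1 (x - y) := by
    intro x hx y hy hxy
    have h1 : ft μ ((t + x) - (t + y)) = 0 := hE1 _ hx _ hy (by
      intro h; apply hxy; exact_mod_cast (add_left_cancel h))
    obtain ⟨i, hi⟩ := factor_of_ft_zero hB1 hB4 hN le_rfl hμ h1
    have h2 : (t + (x : ℝ)) - (t + y) = ((x - y : ℤ) : ℝ) := by push_cast; ring
    rw [h2] at hi
    exact ⟨i, (m_int hB2 hN (by omega) _).1 hi⟩
  have hm1 : ∀ z : ℤ, z ∉ Λ' → ∃ x ∈ Λ', ¬ Dif N 1 (z - x) := by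
    intro z hz
    obtain ⟨x, hx, hne⟩ := hE2 (t + z) hz
    obtain ⟨w, rfl⟩ := hint x hx
    refine ⟨w, hx, ?_⟩
    rintro ⟨i, hi⟩
    apply hne
    have h1 := (m_int hB2 hN (k := 2 * i + 1) (by omega) _).2 hi
    have h2 : (t + (z : ℝ)) - (t + w) = ((z - w : ℤ) : ℝ) := by push_cast; ring
    rw [h2]
    exact ft_zero_of_factor hB1 hN le_rfl hμ h1
  obtain ⟨R, L, hL, hR, ho, hc, hb, hcov⟩ := hA N hN Λ' hne' hd1 hm1
  have hmono : Monotone R := monotone_nat_of_le_succ hR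
  set Γ0 : Set ℤ := {y | ∃ j, y ∈ R j} with hΓ0
  have hdΓ : ∀ x ∈ Γ0, ∀ y ∈ Γ0, x ≠ y →
      ∃ i, ((P N (2 * i + 1) : ℕ) : ℤ) ∣ x - y ∧ ¬ ((P N (2 * i + 2) : ℕ) : ℤ) ∣ x - y := by
    rintro x ⟨j, hj⟩ y ⟨k, hk⟩ hxy
    obtain ⟨i, -, h⟩ := ho (max j k) x (hmono (le_max_left _ _) hj) y (hmono (le_max_right _ _) hk) hxy
    exact ⟨i, h⟩
  have hspec : IsSpectrum ν ((fun x : ℤ => (x : ℝ) + -t) '' Γ0) := by
    refine hD ν Γ0 ?_ ?_ (-t)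
    · intro x hx y hy hxy
      obtain ⟨i, h1, h2⟩ := hdΓ x hx y hy hxy
      have h3 := (m_int hB2 hN (k := 2 * i + 2) (by omega) (x - y)).2 ⟨by simpa using h1, h2⟩
      have h4 : (x : ℝ) - y = ((x - y : ℤ) : ℝ) := by push_cast; ring
      rw [h4]
      exact ft_zero_of_factor hB1 hN (by norm_num) hν h3
    · intro ξ ε hε
      obtain ⟨j, hj⟩ := exists_finset hB1 hB2 hB3 hC hN hν R L hL hR ho hc hb ξ ε hε
      exact ⟨R j, fun x hx => ⟨j, hx⟩, hj⟩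
  refine ⟨_, hspec, ?_, ?_⟩
  · intro z
    obtain ⟨x, hx, j, y, hy, hz⟩ := hcov z
    refine ⟨(t + x, (y : ℝ) + -t), ⟨hx, ⟨y, ⟨j, hy⟩, rfl⟩, ?_⟩, ?_⟩
    · rw [hz]; push_cast; ring
    · rintro ⟨p, q⟩ ⟨hp, ⟨y', hy', hq⟩, hpq⟩
      simp only at hp hq hpq
      obtain ⟨x', rfl⟩ := hint p hp
      have hx' : x' ∈ Λ' := hp
      have hsumz : x' + y' = x + y := by
        have : ((x' : ℝ)) + y' = x + y := by
          rw [← hq] at hpq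
          have h5 : (z : ℝ) = x + y := by rw [hz]; push_cast; ring
          linarith
        exact_mod_cast this
      by_cases hxx : x' = x
      · subst hxx
        have : y' = y := by omega
        subst this
        simp [← hq]
      · exfalso
        have hyy : y ≠ y' := by intro h; apply hxx; omega
        obtain ⟨i, h1, h2⟩ := hd1 x' hx' x hx hxx
        obtain ⟨k, h3, h4⟩ := hdΓ y ⟨j, hy⟩ y' hy' hyy
        have h5 : x' - x = y - y' := by omega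
        rw [h5] at h1 h2
        have hdvd : ∀ a b : ℕ, a ≤ b → ((P N a : ℕ) : ℤ) ∣ ((P N b : ℕ) : ℤ) := by
          intro a b hab
          exact_mod_cast Finset.prod_dvd_prod_of_subset _ _ _ (Finset.range_mono hab)
        rcases Nat.lt_or_ge i (k + 1) with hik | hik
        · apply h2
          exact (hdvd (2 * i + 1) (2 * k + 1) (by omega)).trans h3
        · apply h4
          exact (hdvd (2 * k + 2) (2 * i + 1 - 1) (by omega)).trans h1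
  · rintro x hx _ ⟨y, -, rfl⟩
    obtain ⟨w, rfl⟩ := hint x hx
    exact ⟨w + y, by push_cast; ring⟩

end Pool.Agent.R242.SP
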