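import Pool.Agent.R242.SP.Defs

/-! Statements of the parts (to be proved in separate files). -/

open MeasureTheory Filter Topology
open scoped ENNReal

namespace Pool.Agent.R242.SP

/-- Part A. -/
def S_A : Prop := ∀ (N : ℕ → ℕ), (∀ k, 1 ≤ k → 2 ≤ N k) → ∀ (Λ : Set ℤ), Λ.Nonempty →
  (∀ x ∈ Λ, ∀ y ∈ Λ, x ≠ y → Dif N 1 (x - y)) →
  (∀ z : ℤ, z ∉ Λ → ∃ x ∈ Λ, ¬ Dif N 1 (z - x)) →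
  ∃ (R : ℕ → Finset ℤ) (L : ℕ → ℕ), StrictMono L ∧ (∀ j, R j ⊆ R (j + 1)) ∧
    (∀ j, ∀ x ∈ R j, ∀ y ∈ R j, x ≠ y →
      ∃ i < L j, ((P N (2 * i + 1) : ℕ) : ℤ) ∣ x - y ∧ ¬ ((P N (2 * i + 2) : ℕ) : ℤ) ∣ x - y) ∧
    (∀ j, (R j).card = ∏ i ∈ Finset.range (L j), N (2 * i + 2)) ∧
    (∀ j, ∀ x ∈ R j, 2 * |x| ≤ ((P N (2 * L j) : ℕ) : ℤ)) ∧
    (∀ z : ℤ, ∃ x ∈ Λ, ∃ j, ∃ y ∈ R j, z = x + y)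

/-- Part B1: the Fourier transform of the infinite convolution. -/
def S_B1 : Prop := ∀ (N : ℕ → ℕ), (∀ k, 1 ≤ k → 2 ≤ N k) → ∀ (s : ℕ), 1 ≤ s →
  ∀ (μ : Measure ℝ) [IsProbabilityMeasure μ], IsWeakLimit (part N s) μ → ∀ ξ : ℝ,
    Tendsto (fun n => ∏ i ∈ Finset.range n, m N (2 * i + s) ξ) atTop (𝓝 (ft μ ξ))

/-- Part B2: the zeros of the factors. -/
def S_B2 : Prop := ∀ (N : ℕ → ℕ), (∀ k, 1 ≤ k → 2 ≤ N k) → ∀ (k : ℕ), 1 ≤ k → ∀ ξ : ℝ,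
    m N k ξ = 0 ↔ ∃ a : ℤ, ξ = a * (P N (k - 1) : ℝ) ∧ ¬ ((N k : ℤ) ∣ a)

/-- Part B3: lower bound for the tails. -/
def S_B3 : Prop := ∀ (N : ℕ → ℕ), (∀ k, 1 ≤ k → 2 ≤ N k) → ∀ (n M : ℕ), n ≤ M → ∀ ξ : ℝ,
    |ξ| ≤ 9 / 16 * (P N (2 * n) : ℝ) → 1 / 20 ≤ ‖∏ i ∈ Finset.Ico n M, m N (2 * i + 2) ξ‖

/-- Part B4: a zero of the infinite product is a zero of a factor. -/
def S_B4 : Prop := ∀ (N : ℕ → ℕ), (∀ k, 1 ≤ k → 2 ≤ N k) → ∀ (s : ℕ), 1 ≤ s → ∀ ξ : ℝ,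
    Tendsto (fun n => ∏ i ∈ Finset.range n, m N (2 * i + s) ξ) atTop (𝓝 0) →
    ∃ i, m N (2 * i + s) ξ = 0

/-- Part C: Parseval's identity on a finite level. -/
def S_C : Prop := ∀ (N : ℕ → ℕ), (∀ k, 1 ≤ k → 2 ≤ N k) → ∀ (n : ℕ) (R : Finset ℤ),
    R.card = ∏ i ∈ Finset.range n, N (2 * i + 2) →
    (∀ x ∈ R, ∀ y ∈ R, x ≠ y → ∏ i ∈ Finset.range n, m N (2 * i + 2) ((x : ℝ) - y) = 0) →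
    ∀ ξ : ℝ, ∑ x ∈ R, ‖∏ i ∈ Finset.range n, m N (2 * i + 2) (ξ + x)‖ ^ 2 = 1

/-- Part D: the criterion for spectra. -/
def S_D : Prop := ∀ (ν : Measure ℝ) [IsProbabilityMeasure ν] (Γ : Set ℤ),
    (∀ x ∈ Γ, ∀ y ∈ Γ, x ≠ y → ft ν ((x : ℝ) - y) = 0) →
    (∀ ξ : ℝ, ∀ ε > 0, ∃ F : Finset ℤ, (∀ x ∈ F, x ∈ Γ) ∧ 1 - ε ≤ ∑ x ∈ F, ‖ft ν (ξ + x)‖ ^ 2) →
    ∀ t : ℝ, IsSpectrum ν ((fun x : ℤ => (x : ℝ) + t) '' Γ)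

/-- Part E: orthogonality and maximality of spectra. -/
def S_E : Prop := ∀ (μ : Measure ℝ) [IsProbabilityMeasure μ] (Λ : Set ℝ), IsSpectrum μ Λ →
    (∀ x ∈ Λ, ∀ y ∈ Λ, x ≠ y → ft μ (x - y) = 0) ∧
    (∀ t : ℝ, t ∉ Λ → ∃ x ∈ Λ, ft μ (t - x) ≠ 0)

end Pool.Agent.R242.SP
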